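import Pool.Agent.Helper38.TQK.Final

/-!
# Curves in projective space, the map being defined over the constants
-/

set_option autoImplicit false

namespace Pool.Agent.Helper38.TQK

open MvPolynomial
open Pool.Agent.Helper16 (Place IsFunctionField)
open Pool.Agent.Helper36 (step iter iter_zero iter_succ iter_succ' iter_add iter_map)
open Pool.Agent.Helper38.TQ
open Pool.Agent.Helper30.TKN

variable {ν : ℕ}

theorem jf_map {R S : Type} [Field R] [Field S] (φ : R →+* S)
    (F : Fin (ν + 1) → MvPolynomial (Fin (ν + 1)) R) :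
    map φ (jf F) = jf fun i => map φ (F i) := by
  unfold jf
  rw [RingHom.map_det]
  congr 1
  ext1 i j
  simp only [RingHom.mapMatrix_apply, Matrix.map_apply, Matrix.of_apply]
  exact (pderiv_map).symm

/-- **Curves, maps over the constants.** If only finitely many points of the orbit are critical then
the return set of a point which is not defined over `k` to a curve is a finite union of
progressions. -/
theorem dml_curve_crit {k : Type} [Field k] [IsAlgClosed k] [Algebra k ℂ] {d : ℕ}
    {F : Fin (ν + 1) → MvPolynomial (Fin (ν + 1)) k} (hF : IsEndo d F)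
    {a : Fin (ν + 1) → ℂ} (ha0 : a ≠ 0) (hac : ¬ IsConst k a)
    (hcrit : {n | eval (iter F a n) (jf fun i => map (algebraMap k ℂ) (F i)) = 0}.Finite)
    {S : Set (MvPolynomial (Fin (ν + 1)) ℂ)} (hS : ∀ g ∈ S, ∃ e, g.IsHomogeneous e)
    (hcur : CurveSet S) :
    ∃ T : Finset (ℕ × ℕ), {n : ℕ | ∀ g ∈ S, eval (iter F a n) g = 0} =
      {n : ℕ | ∃ q ∈ T, ∃ m : ℕ, n = q.1 * m + q.2} := by
  classical
  obtain ⟨i₀, hi₀⟩ := Function.ne_iff.1 ha0
  have hi₀' : a i₀ ≠ 0 := hi₀
  set v : Fin (ν + 1) → ℂ := (a i₀)⁻¹ • a with hv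
  have hv1 : v i₀ = 1 := by
    rw [hv, Pi.smul_apply, smul_eq_mul, inv_mul_cancel₀ hi₀']
  have hvc : ¬ IsConst k v := by rwa [hv, isConst_smul (inv_ne_zero hi₀')]
  obtain ⟨k', _, _, _, _, _, hvc', hK⟩ := exists_function_field v i₀ hv1 hvc
  set K := IntermediateField.adjoin k' (Set.range v)
  let y : Fin (ν + 1) → K := fun i => ⟨v i, IntermediateField.subset_adjoin _ _ ⟨i, rfl⟩⟩
  have hyv : (fun i => algebraMap K ℂ (y i)) = v := rfl
  have hy0 : y ≠ 0 := by
    intro h
    have h1 := congrArg (fun w : Fin (ν + 1) → K => algebraMap K ℂ (w i₀)) h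
    simp only [Pi.zero_apply, map_zero] at h1
    have h2 : algebraMap K ℂ (y i₀) = v i₀ := rfl
    rw [h2, hv1] at h1
    exact one_ne_zero h1
  have hyc : ¬ IsConst k' y := by
    rintro ⟨w, c, hc0, hw⟩
    apply hvc'
    refine ⟨w, algebraMap K ℂ c, by simpa using hc0, ?_⟩
    rw [← hyv, hw]
    funext i
    rw [map_mul, ← IsScalarTower.algebraMap_apply]
  have hF' := hF.map (k' := k')
  have hay : (fun i => a i₀ * algebraMap K ℂ (y i)) = a := by
    funext i
    have h6 : algebraMap K ℂ (y i) = (a i₀)⁻¹ * a i := rfl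
    rw [h6, ← mul_assoc, mul_inv_cancel₀ hi₀', one_mul]
  -- the map over `K`
  set FK : Fin (ν + 1) → MvPolynomial (Fin (ν + 1)) K := fun i =>
    map (algebraMap k' K) (map (algebraMap k k') (F i)) with hFK
  have hFKC : ∀ i, map (algebraMap K ℂ) (FK i) = map (algebraMap k ℂ) (F i) := by
    intro i
    rw [hFK]
    simp only [map_map]
    congr 2
    refine RingHom.ext fun c => ?_
    change algebraMap K ℂ (algebraMap k' K (algebraMap k k' c)) = algebraMap k ℂ c
    rw [← IsScalarTower.algebraMap_apply k' K ℂ, ← IsScalarTower.algebraMap_apply k k' ℂ]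
  have hFC : IsEndo d fun i => map (algebraMap K ℂ) (FK i) := by
    have h1 := hF.map (k' := ℂ)
    have h2 : (fun i => map (algebraMap K ℂ) (FK i)) = fun i => map (algebraMap k ℂ) (F i) :=
      funext hFKC
    rw [h2]
    exact h1
  have hitK : ∀ n, iter FK y n = iter (fun i => map (algebraMap k k') (F i)) y n := fun n =>
    iter_map_base _ y n
  have hunb : ∀ B : ℤ, ∃ n, B < Pool.Agent.Helper38.TQ.ht k' (iter FK y n) := by
    intro B
    refine ⟨B.toNat, ?_⟩
    rw [hitK]
    exact (Int.self_le_toNat B).trans_lt (ht_iter_large hK hF' hy0 hyc _)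
  have horb : ∀ n, iter F a n = (a i₀) ^ d ^ n • fun i => algebraMap K ℂ (iter FK y n i) := by
    intro n
    have h4 := orbit_eq (k' := k') (K := K) hF y (a i₀) n
    rw [hay] at h4
    rw [h4, hitK]
  have hcrit' : {n | eval (iter FK y n) (jf FK) = 0}.Finite := by
    refine hcrit.subset fun n hn => ?_
    have hn' : eval (iter FK y n) (jf FK) = 0 := hn
    change eval (iter F a n) _ = 0
    have h1 : (jf fun i => map (algebraMap k ℂ) (F i)) = map (algebraMap K ℂ) (jf FK) := by
      rw [jf_map]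
      congr 1
      exact (funext hFKC).symm
    rw [h1, horb, eval_smul_hom ((jf_hom (homog_of_endo hFC)).map _),
      ← Pool.Agent.Helper38.Sym.map_eval_gen, hn', map_zero, mul_zero]
  have h2 := tqk_dml hK hFC hy0 hunb hcrit' (a i₀) hi₀' hS hcur
  obtain ⟨T, hT⟩ := h2
  refine ⟨T, ?_⟩
  rw [← hT]
  ext n
  have horb2 : (fun (x : Fin (ν + 1) → ℂ) (i : Fin (ν + 1)) => eval x
      (map (algebraMap K ℂ) (FK i)))^[n] (fun i => a i₀ * algebraMap K ℂ (y i)) =
        iter F a n := by
    rw [orbit_complex hFC, horb]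
  simp only [Set.mem_ofPred_eq, horb2]

end Pool.Agent.Helper38.TQK
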