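import Pool.Agent.Helper38.TQK.Main
import Pool.Agent.Helper38.TQK.Etale
import Pool.Agent.Helper38.TQ.Final2

/-!
# Curves in projective space over function fields
-/

set_option autoImplicit false

namespace Pool.Agent.Helper38.TQK

open MvPolynomial
open Pool.Agent.Helper16 (Place IsFunctionField)
open Pool.Agent.Helper36 (step iter iter_zero iter_succ iter_succ' iter_add iter_map)
open Pool.Agent.Helper38.TQ
open Pool.Agent.Helper30.TKN

variable {ν : ℕ}

/-- The orbit of a point over `K`, over the complex numbers. -/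
theorem orbit_complex {K : Type} [Field K] [Algebra K ℂ] {d : ℕ}
    {F : Fin (ν + 1) → MvPolynomial (Fin (ν + 1)) K}
    (hF : IsEndo d fun i => map (algebraMap K ℂ) (F i)) (x : Fin (ν + 1) → K) (c : ℂ) (n : ℕ) :
    (fun (x : Fin (ν + 1) → ℂ) (i : Fin (ν + 1)) =>
        eval x (map (algebraMap K ℂ) (F i)))^[n] (fun i => c * algebraMap K ℂ (x i)) =
      c ^ d ^ n • fun i => algebraMap K ℂ (iter F x n i) := by
  have h1 : (fun (x : Fin (ν + 1) → ℂ) (i : Fin (ν + 1)) => eval x (map (algebraMap K ℂ) (F i))) =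
      step fun i => map (algebraMap K ℂ) (F i) := by
    funext x i
    rfl
  rw [h1]
  have h2 : (fun i => c * algebraMap K ℂ (x i)) = c • fun i => algebraMap K ℂ (x i) := rfl
  rw [h2]
  change iter (fun i => map (algebraMap K ℂ) (F i)) (c • fun i => algebraMap K ℂ (x i)) n = _
  rw [iter_smul hF]
  congr 1
  induction n with
  | zero => rfl
  | succ n ih =>
    rw [iter_succ, ih]
    funext i
    change eval _ (map (algebraMap K ℂ) (F i)) = algebraMap K ℂ (iter F x (n + 1) i)
    rw [iter_succ]
    exact (Pool.Agent.Helper38.Sym.map_eval_gen (algebraMap K ℂ) _ _).symm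

/-- **Curves over function fields.** The return set of a point of unbounded height over a function
field, whose orbit meets the critical set only finitely often, to a curve is a finite union of
progressions. -/
theorem tqk_dml {k K : Type} [Field k] [IsAlgClosed k] [Field K] [Algebra k K] [Algebra k ℂ]
    [Algebra K ℂ] [IsScalarTower k K ℂ] (hK : IsFunctionField k K) {d : ℕ}
    {F : Fin (ν + 1) → MvPolynomial (Fin (ν + 1)) K}
    (hF : IsEndo d fun i => map (algebraMap K ℂ) (F i))
    {x : Fin (ν + 1) → K} (hx : x ≠ 0) (hunb : ∀ B : ℤ, ∃ n, B < ht k (iter F x n))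
    (hcrit : {n | eval (iter F x n) (jf F) = 0}.Finite) (c : ℂ) (hc : c ≠ 0)
    {S : Set (MvPolynomial (Fin (ν + 1)) ℂ)} (hS : ∀ g ∈ S, ∃ e, g.IsHomogeneous e)
    (hcur : CurveSet S) :
    ∃ T : Finset (ℕ × ℕ), {n : ℕ | ∀ g ∈ S, eval ((fun (x : Fin (ν + 1) → ℂ) (i : Fin (ν + 1)) =>
        eval x (map (algebraMap K ℂ) (F i)))^[n] (fun i => c * algebraMap K ℂ (x i))) g = 0} =
      {n : ℕ | ∃ q ∈ T, ∃ m : ℕ, n = q.1 * m + q.2} := by
  classical
  have hchar : CharZero k := (algebraMap k ℂ).charZero
  have hhom : ∀ i, (F i).IsHomogeneous d := fun i => homog_of_endo hF i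
  by_cases hne : NoEtale k d F x
  · refine finite_progressions ?_
    by_contra hinf
    obtain ⟨U, hU, hRU⟩ := exists_free hinf
    refine no_curve hK hF hx hunb hcrit hne hU (hcur _ _ _ ?_)
    have hRU' : ∀ᶠ n in (U : Filter ℕ), ∀ g ∈ S,
        eval ((fun (x : Fin (ν + 1) → ℂ) (i : Fin (ν + 1)) =>
          eval x (map (algebraMap K ℂ) (F i)))^[n] (fun i => c * algebraMap K ℂ (x i))) g = 0 := hRU
    filter_upwards [hRU'] with n hn g hg
    obtain ⟨e, he⟩ := hS g hg
    have h5 := hn g hg
    rw [orbit_complex hF, eval_smul_hom he, mul_eq_zero] at h5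
    exact h5.resolve_left (pow_ne_zero _ (pow_ne_zero _ hc))
  · unfold NoEtale at hne
    push Not at hne
    obtain ⟨b, f, z, hf, hz, n, N, hN, hper, hdet⟩ := hne
    exact etale_dml hK hhom x hx b f hf z hz n N hN hper hdet c hc S hS

end Pool.Agent.Helper38.TQK
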