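import Pool.Agent.Helper38.TQK.Elem2
import Pool.Agent.Helper38.TQK.Final

/-!
# Curves in projective space over function fields: elementary form
-/

set_option autoImplicit false

namespace Pool.Agent.Helper38.TQK

open MvPolynomial
open Pool.Agent.Helper16 (Place IsFunctionField)
open Pool.Agent.Helper36 (step iter iter_zero iter_succ iter_succ' iter_add iter_map)
open Pool.Agent.Helper38.TQ
open Pool.Agent.Helper30.TKN

variable {ν : ℕ}

/-- Data over a function field: a map and a point with coefficients algebraic over `k(t)`. -/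
theorem exists_data {k : Type} [Field k] [IsAlgClosed k] [Algebra k ℂ] {t : ℂ}
    (ht : t ∉ Set.range (algebraMap k ℂ)) {d : ℕ}
    {f : Fin (ν + 1) → MvPolynomial (Fin (ν + 1)) ℂ} (hf : IsEndo d f)
    (hfc : ∀ i m, Alg k t ((f i).coeff m)) {a : Fin (ν + 1) → ℂ} (ha : a ≠ 0)
    (hac : ∀ i, Alg k t (a i)) :
    ∃ (K : IntermediateField k ℂ) (F : Fin (ν + 1) → MvPolynomial (Fin (ν + 1)) K)
      (x : Fin (ν + 1) → K), IsFunctionField k K ∧ t ∈ K ∧
      (∀ i, map (algebraMap K ℂ) (F i) = f i) ∧ (∀ i, algebraMap K ℂ (x i) = a i) ∧ x ≠ 0 ∧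
      IsEndo d fun i => map (algebraMap K ℂ) (F i) := by
  classical
  set s : Set ℂ := (⋃ i, ((f i).coeffs : Set ℂ)) ∪ Set.range a with hs
  have hsf : s.Finite := (Set.finite_iUnion fun i => (f i).coeffs.finite_toSet).union
    (Set.finite_range a)
  have hsa : ∀ c ∈ s, Alg k t c := by
    rintro c (hc | ⟨i, rfl⟩)
    · obtain ⟨i, hi⟩ := Set.mem_iUnion.1 hc
      obtain ⟨m, hm⟩ := mem_coeffs_iff.1 hi
      rw [hm.2]
      exact hfc i m
    · exact hac i
  set K := IntermediateField.adjoin k (insert t s) with hK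
  have hfun := exists_field_of_algebraic ht hsf hsa
  have hmem : ∀ c ∈ s, c ∈ K := fun c hc =>
    IntermediateField.subset_adjoin k _ (Set.mem_insert_of_mem _ hc)
  have hlift : ∀ i, ∃ g : MvPolynomial (Fin (ν + 1)) K, map (algebraMap K ℂ) g = f i := by
    intro i
    have h1 : f i ∈ Set.range (map (σ := Fin (ν + 1)) (algebraMap K ℂ)) := by
      rw [mem_range_map_iff_coeffs_subset]
      intro c hc
      exact ⟨⟨c, hmem c (Or.inl (Set.mem_iUnion.2 ⟨i, hc⟩))⟩, rfl⟩
    exact h1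
  choose F hF using hlift
  refine ⟨K, F, fun i => ⟨a i, hmem _ (Or.inr ⟨i, rfl⟩)⟩, hfun,
    IntermediateField.subset_adjoin k _ (Set.mem_insert _ _), hF, fun i => rfl, ?_, ?_⟩
  · intro h
    apply ha
    funext i
    have h1 := congrArg (algebraMap K ℂ) (congrFun h i)
    rw [Pi.zero_apply, map_zero] at h1
    exact h1
  · have h1 : (fun i => map (algebraMap K ℂ) (F i)) = f := funext hF
    rw [h1]
    exact hf

/-- Points of bounded height satisfy relations of bounded degree. -/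
theorem heightLe_of_ht {k : Type} [Field k] [IsAlgClosed k] [Algebra k ℂ]
    {K : IntermediateField k ℂ} (hK : IsFunctionField k K) {t : ℂ} (ht : t ∈ K) (B : ℤ) :
    ∃ D : ℕ, ∀ x : Fin (ν + 1) → K, Pool.Agent.Helper38.TQ.ht k x ≤ B →
      HeightLe k t D fun i => algebraMap K ℂ (x i) := by
  obtain ⟨D, hD⟩ := exists_relation hK (⟨t, ht⟩ : K) B
  refine ⟨D, fun x hx i j hj => ?_⟩
  have hj' : x j ≠ 0 := fun h => hj (by
    change algebraMap K ℂ (x j) = 0
    rw [h, map_zero])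
  obtain ⟨P, hP, hPD, hP0⟩ := hD (x i / x j) ((ht_pair_le hK i j hj').trans hx)
  refine ⟨P, hP, hPD, ?_⟩
  have h1 : (![t, algebraMap K ℂ (x i) / algebraMap K ℂ (x j)] : Fin 2 → ℂ) =
      fun l => K.val ((![⟨t, ht⟩, x i / x j] : Fin 2 → K) l) := by
    funext l
    fin_cases l
    · rfl
    · change algebraMap K ℂ (x i) / algebraMap K ℂ (x j) = algebraMap K ℂ (x i / x j)
      rw [map_div₀]
  rw [h1, ← comp_aeval_apply, hP0, map_zero]

/-- **Curves, elementary form.** -/
theorem curves {k : Type} [Field k] [IsAlgClosed k] [Algebra k ℂ] {t : ℂ}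
    (ht : t ∉ Set.range (algebraMap k ℂ)) {d : ℕ}
    {f : Fin (ν + 1) → MvPolynomial (Fin (ν + 1)) ℂ} (hf : IsEndo d f)
    (hfc : ∀ i m, Alg k t ((f i).coeff m)) {a : Fin (ν + 1) → ℂ} (ha : a ≠ 0)
    (hac : ∀ i, Alg k t (a i))
    (hunb : ∀ D, ∃ n, ¬ HeightLe k t D
      ((fun (x : Fin (ν + 1) → ℂ) (i : Fin (ν + 1)) => eval x (f i))^[n] a))
    (hcrit : {n | eval ((fun (x : Fin (ν + 1) → ℂ) (i : Fin (ν + 1)) => eval x (f i))^[n] a)
      (jf f) = 0}.Finite)
    {S : Set (MvPolynomial (Fin (ν + 1)) ℂ)} (hS : ∀ g ∈ S, ∃ e, g.IsHomogeneous e)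
    (hcur : CurveSet S) :
    ∃ T : Finset (ℕ × ℕ), {n : ℕ | ∀ g ∈ S,
        eval ((fun (x : Fin (ν + 1) → ℂ) (i : Fin (ν + 1)) => eval x (f i))^[n] a) g = 0} =
      {n : ℕ | ∃ q ∈ T, ∃ m : ℕ, n = q.1 * m + q.2} := by
  classical
  obtain ⟨K, F, x, hK, htK, hFf, hxa, hx, hF⟩ := exists_data ht hf hfc ha hac
  have hFf' : (fun i => map (algebraMap K ℂ) (F i)) = f := funext hFf
  have hxa' : (fun i => (1 : ℂ) * algebraMap K ℂ (x i)) = a := by
    funext i
    rw [one_mul, hxa]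
  have horb : ∀ n, (fun (x : Fin (ν + 1) → ℂ) (i : Fin (ν + 1)) => eval x (f i))^[n] a =
      fun i => algebraMap K ℂ (iter F x n i) := by
    intro n
    have h2 := orbit_complex hF x 1 n
    rw [hxa', one_pow, one_smul] at h2
    rw [← h2, ← hFf']
  have hjf : map (algebraMap K ℂ) (jf F) = jf f := by
    unfold jf
    rw [RingHom.map_det, ← hFf']
    congr 1
    ext1 i j
    simp only [RingHom.mapMatrix_apply, Matrix.map_apply, Matrix.of_apply]
    exact (pderiv_map).symm
  have hunb' : ∀ B : ℤ, ∃ n, B < Pool.Agent.Helper38.TQ.ht k (iter F x n) := by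
    intro B
    by_contra hcon
    push Not at hcon
    obtain ⟨D, hD⟩ := heightLe_of_ht (ν := ν) hK htK B
    obtain ⟨n, hn⟩ := hunb D
    apply hn
    rw [horb]
    exact hD _ (hcon n)
  have hcrit' : {n | eval (iter F x n) (jf F) = 0}.Finite := by
    refine hcrit.subset fun n hn => ?_
    have hn' : eval (iter F x n) (jf F) = 0 := hn
    change eval _ (jf f) = 0
    rw [horb, ← hjf, ← Pool.Agent.Helper38.Sym.map_eval_gen, hn', map_zero]
  have h2 := tqk_dml hK hF hx hunb' hcrit' 1 one_ne_zero hS hcur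
  rw [hxa'] at h2
  simp only [hFf] at h2
  exact h2

end Pool.Agent.Helper38.TQK
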