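import Pool.Agent.Helper38.TQK.Form
import Pool.Agent.Helper30.TP.FormHeight

/-!
# Heights and algebraic relations of bounded degree
-/

set_option autoImplicit false

namespace Pool.Agent.Helper38.TQK

open MvPolynomial
open Pool.Agent.Helper16 (Place IsFunctionField)
open Pool.Agent.Helper38.TQ
open Pool.Agent.Helper30.TKN

variable {ν : ℕ}

/-- A linear dependence of monomials gives a polynomial relation. -/
theorem exists_poly_of_dependent {k K : Type} [Field k] [Field K] [Algebra k K] (t u : K)
    (D₁ D₂ : ℕ)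
    (h : ¬ LinearIndependent k
      (fun p : Fin (D₁ + 1) × Fin (D₂ + 1) => t ^ (p.1 : ℕ) * u ^ (p.2 : ℕ))) :
    ∃ P : MvPolynomial (Fin 2) k, P ≠ 0 ∧ P.totalDegree ≤ D₁ + D₂ ∧ aeval ![t, u] P = 0 := by
  classical
  rw [Fintype.not_linearIndependent_iff] at h
  obtain ⟨g, hg, p₀, hp₀⟩ := h
  set ex : Fin (D₁ + 1) × Fin (D₂ + 1) → (Fin 2 →₀ ℕ) := fun p =>
    Finsupp.single 0 (p.1 : ℕ) + Finsupp.single 1 (p.2 : ℕ) with hex
  have hinj : Function.Injective ex := by
    intro p q hpq
    have h0 := DFunLike.congr_fun hpq 0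
    have h1 := DFunLike.congr_fun hpq 1
    simp [hex] at h0 h1
    exact Prod.ext (Fin.ext h0) (Fin.ext h1)
  refine ⟨∑ p, monomial (ex p) (g p), ?_, ?_, ?_⟩
  · intro h0
    apply hp₀
    have h1 := congrArg (coeff (ex p₀)) h0
    rw [coeff_sum, coeff_zero] at h1
    simp only [coeff_monomial] at h1
    rw [Finset.sum_eq_single p₀] at h1
    · simpa using h1
    · intro q _ hq
      rw [if_neg fun h => hq (hinj h)]
    · intro h
      exact absurd (Finset.mem_univ _) h
  · refine totalDegree_finsetSum_le fun p _ => ?_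
    refine (totalDegree_monomial_le _ _).trans ?_
    have h1 : (ex p).sum (fun _ e => e) = (p.1 : ℕ) + (p.2 : ℕ) := by
      rw [hex]
      rw [Finsupp.sum_fintype _ _ (fun _ => rfl), Fin.sum_univ_two]
      simp
    have h2 := p.1.2
    have h3 := p.2.2
    change (ex p).sum (fun _ e => e) ≤ _
    omega
  · rw [map_sum]
    rw [← hg]
    refine Finset.sum_congr rfl fun p _ => ?_
    rw [aeval_monomial, Algebra.smul_def]
    congr 1
    rw [hex]
    rw [Finsupp.prod_fintype _ _ (fun _ => pow_zero _), Fin.prod_univ_two]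
    simp

variable {k K : Type} [Field k] [IsAlgClosed k] [Field K] [Algebra k K]

theorem log_nrm_pair_nonneg (b : Place k K) (u : K) :
    0 ≤ WithZero.log (nrm b ![1, u]) := by
  have h1 : (1 : WithZero (Multiplicative ℤ)) ≤ nrm b ![1, u] := by
    have := val_le_nrm b ![1, u] 0
    simpa using this
  rw [← WithZero.log_one, WithZero.log_le_log one_ne_zero (lt_of_lt_of_le zero_lt_one h1).ne']
  exact h1

theorem pair_ne_zero (u : K) : (![1, u] : Fin 2 → K) ≠ 0 := by
  intro h
  have := congrFun h 0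
  simp at this

theorem val_le_exp_pair (b : Place k K) (u : K) :
    b.val u ≤ WithZero.exp (WithZero.log (nrm b ![1, u])) := by
  rw [WithZero.exp_log (nrm_ne_zero (pair_ne_zero u))]
  have := val_le_nrm b ![1, u] 1
  simpa using this

/-- Elements of bounded height satisfy algebraic relations of bounded degree. -/
theorem exists_relation (hK : IsFunctionField k K) (t : K) (B : ℤ) :
    ∃ D : ℕ, ∀ u : K, ht k ![1, u] ≤ B →
      ∃ P : MvPolynomial (Fin 2) k, P ≠ 0 ∧ P.totalDegree ≤ D ∧ aeval ![t, u] P = 0 := by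
  classical
  set m : ℕ := (ht k ![1, t]).toNat with hm
  set B' : ℕ := B.toNat with hB'
  have hpos : ∀ u : K, 0 ≤ ht k ![1, u] := fun u =>
    low_ht_nonneg (ν := 1) hK (pair_ne_zero u)
  refine ⟨(2 * B' + 1) + (2 * m + 1), fun u hu => ?_⟩
  refine exists_poly_of_dependent t u (2 * B' + 1) (2 * m + 1) ?_
  intro hind
  set v : Fin (2 * B' + 1 + 1) × Fin (2 * m + 1 + 1) → K :=
    fun p => t ^ (p.1 : ℕ) * u ^ (p.2 : ℕ) with hv
  set W : Submodule k K := Submodule.span k (Set.range v) with hW
  have hWfin : FiniteDimensional k W := FiniteDimensional.span_of_finite k (Set.finite_range v)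
  have hrank : Module.finrank k W = (2 * B' + 1 + 1) * (2 * m + 1 + 1) := by
    rw [hW, finrank_span_eq_card hind]
    simp
  have hst := nrm_support hK ![1, t] (pair_ne_zero t)
  have hsu := nrm_support hK ![1, u] (pair_ne_zero u)
  set T : Finset (Place k K) := hst.toFinset ∪ hsu.toFinset with hT
  set κ : Place k K → ℕ := fun b => (2 * B' + 1) * (WithZero.log (nrm b ![1, t])).toNat +
    (2 * m + 1) * (WithZero.log (nrm b ![1, u])).toNat with hκ
  have hκz : ∀ b, (κ b : ℤ) = (2 * B' + 1) * WithZero.log (nrm b ![1, t]) +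
      (2 * m + 1) * WithZero.log (nrm b ![1, u]) := by
    intro b
    rw [hκ]
    push_cast
    rw [Int.toNat_of_nonneg (log_nrm_pair_nonneg b t), Int.toNat_of_nonneg
      (log_nrm_pair_nonneg b u)]
  have hpow : ∀ (b : Place k K) (w : K) (n M : ℕ), n ≤ M →
      b.val w ^ n ≤ WithZero.exp ((M : ℤ) * WithZero.log (nrm b ![1, w])) := by
    intro b w n M hnM
    have h1 : b.val w ^ n ≤ WithZero.exp ((n : ℤ) * WithZero.log (nrm b ![1, w])) := by
      have h2 := pow_le_pow_left' (val_le_exp_pair b w) n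
      rwa [← WithZero.exp_nsmul, nsmul_eq_mul] at h2
    refine h1.trans ?_
    rw [WithZero.exp_le_exp]
    exact mul_le_mul_of_nonneg_right (by exact_mod_cast hnM) (log_nrm_pair_nonneg b w)
  have hWb : ∀ b : Place k K, W ≤ b.filt (κ b) := by
    intro b
    rw [hW, Submodule.span_le]
    rintro _ ⟨p, rfl⟩
    change b.val (t ^ (p.1 : ℕ) * u ^ (p.2 : ℕ)) ≤ WithZero.exp (κ b : ℤ)
    rw [map_mul, map_pow, map_pow, hκz, WithZero.exp_add]
    have h1 := p.1.2
    have h2 := p.2.2
    refine mul_le_mul' ?_ ?_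
    · have := hpow b t p.1 (2 * B' + 1) (by omega)
      push_cast at this
      exact this
    · have := hpow b u p.2 (2 * m + 1) (by omega)
      push_cast at this
      exact this
  have hcut := Pool.Agent.Helper16.finrank_le_cut_finset
    (fun b : Place k K => b.finite_resField hK) T κ W (fun b _ => hWb b)
  -- the remaining functions are constant
  have hone : Module.finrank k (W ⊓ ⨅ b ∈ T, b.filt 0 : Submodule k K) ≤ 1 := by
    have h1 : (W ⊓ ⨅ b ∈ T, b.filt 0 : Submodule k K) ≤ Submodule.span k {(1 : K)} := by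
      intro f hf
      obtain ⟨hfW, hfT⟩ := hf
      have h2 : ∀ b : Place k K, b.val f ≤ 1 := by
        intro b
        by_cases hb : b ∈ T
        · have h3 : f ∈ b.filt 0 := by
            have h4 := (Submodule.mem_iInf _).1 hfT b
            exact (Submodule.mem_iInf _).1 h4 hb
          have h4 : b.val f ≤ WithZero.exp (0 : ℤ) := h3
          rwa [WithZero.exp_zero] at h4
        · rw [hT, Finset.mem_union, not_or, Set.Finite.mem_toFinset, Set.Finite.mem_toFinset,
            Function.notMem_support, Function.notMem_support] at hb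
          have h3 : (κ b : ℤ) = 0 := by
            rw [hκz, hb.1, hb.2, mul_zero, mul_zero, add_zero]
          have h4 : b.val f ≤ WithZero.exp (κ b : ℤ) := hWb b hfW
          rwa [h3, WithZero.exp_zero] at h4
      obtain ⟨c, hc⟩ := Pool.Agent.Helper30.TP.formHeight_place hK f h2
      rw [Submodule.mem_span_singleton]
      exact ⟨c, by rw [Algebra.smul_def, mul_one, hc]⟩
    calc Module.finrank k (W ⊓ ⨅ b ∈ T, b.filt 0 : Submodule k K)
        ≤ Module.finrank k (Submodule.span k {(1 : K)}) := Submodule.finrank_mono h1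
      _ ≤ 1 := by
        have := finrank_span_le_card (R := k) ({(1 : K)} : Set K)
        simpa using this
  have hsum : ((∑ b ∈ T, κ b * b.deg : ℕ) : ℤ) ≤ (2 * B' + 1) * m + (2 * m + 1) * B' := by
    have h1 : ((∑ b ∈ T, κ b * b.deg : ℕ) : ℤ) = ∑ b ∈ T,
        ((2 * B' + 1) * WithZero.log (nrm b ![1, t]) +
          (2 * m + 1) * WithZero.log (nrm b ![1, u])) := by
      push_cast
      refine Finset.sum_congr rfl fun b _ => ?_
      rw [deg_eq_one hK b, hκz]
      push_cast
      ring
    have h2 : ht k ![1, t] = ∑ b ∈ T, WithZero.log (nrm b ![1, t]) :=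
      finsum_eq_sum_of_support_subset _ fun b hb => by
        rw [hT, Finset.coe_union]
        exact Or.inl (by simpa using hb)
    have h3 : ht k ![1, u] = ∑ b ∈ T, WithZero.log (nrm b ![1, u]) :=
      finsum_eq_sum_of_support_subset _ fun b hb => by
        rw [hT, Finset.coe_union]
        exact Or.inr (by simpa using hb)
    rw [h1, Finset.sum_add_distrib, ← Finset.mul_sum, ← Finset.mul_sum, ← h2, ← h3]
    have h4 : ht k ![1, t] = m := (Int.toNat_of_nonneg (hpos t)).symm
    have h5 : ht k ![1, u] ≤ B' := hu.trans (Int.self_le_toNat B)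
    rw [h4]
    have h6 : (2 * (m : ℤ) + 1) * ht k ![1, u] ≤ (2 * m + 1) * B' :=
      mul_le_mul_of_nonneg_left h5 (by positivity)
    linarith
  rw [hrank] at hcut
  have h7 : (((2 * B' + 1 + 1) * (2 * m + 1 + 1) : ℕ) : ℤ) ≤
      1 + ((2 * B' + 1) * m + (2 * m + 1) * B') := by
    refine (Int.ofNat_le.2 (hcut.trans (Nat.add_le_add_right hone _))).trans ?_
    push_cast at hsum ⊢
    linarith
  push_cast at h7
  have h8 : (0 : ℤ) ≤ (B' : ℤ) * m := by positivity
  have h9 : (0 : ℤ) ≤ (B' : ℤ) := by positivity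
  have h10 : (0 : ℤ) ≤ (m : ℤ) := by positivity
  nlinarith

/-- Quotients of coordinates have smaller height. -/
theorem ht_pair_le (hK : IsFunctionField k K) {x : Fin (ν + 1) → K} (i j : Fin (ν + 1))
    (hj : x j ≠ 0) : ht k ![1, x i / x j] ≤ ht k x := by
  have hx : x ≠ 0 := fun h => hj (by rw [h]; rfl)
  rw [← ht_smul hK (inv_ne_zero hj) hx]
  unfold ht
  refine finsum_le_finsum' (nrm_support hK _ (pair_ne_zero _))
    (nrm_support hK _ (smul_ne_zero (inv_ne_zero hj) hx)) fun b => ?_
  have h1 : nrm b ![1, x i / x j] ≤ nrm b ((x j)⁻¹ • x) := by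
    refine nrm_le fun l => ?_
    fin_cases l
    · have := val_le_nrm b ((x j)⁻¹ • x) j
      rw [Pi.smul_apply, smul_eq_mul, inv_mul_cancel₀ hj] at this
      simpa using this
    · have := val_le_nrm b ((x j)⁻¹ • x) i
      rw [Pi.smul_apply, smul_eq_mul, mul_comm, ← div_eq_mul_inv] at this
      simpa using this
  rw [WithZero.log_le_log (nrm_ne_zero (pair_ne_zero _))
    (nrm_ne_zero (smul_ne_zero (inv_ne_zero hj) hx))]
  exact h1

end Pool.Agent.Helper38.TQK
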