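import Pool.Agent.Helper38.TQK.Elem
import Pool.Agent.Helper30.TP.Emb

/-!
# The function field generated by finitely many algebraic functions
-/

set_option autoImplicit false

namespace Pool.Agent.Helper38.TQK

open MvPolynomial
open Pool.Agent.Helper16 (Place IsFunctionField)
open Pool.Agent.Helper30.TP (emb_mem_range emb_trdeg_le)

/-- The number `c` is algebraic over `k(t)`. -/
def Alg (k : Type) [Field k] [Algebra k ℂ] (t c : ℂ) : Prop :=
  ∃ P : MvPolynomial (Fin 2) k, P ≠ 0 ∧ aeval ![t, c] P = 0

/-- The quotients of the coordinates satisfy relations over `k(t)` of degree at most `D`. -/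
def HeightLe {ν : ℕ} (k : Type) [Field k] [Algebra k ℂ] (t : ℂ) (D : ℕ)
    (x : Fin (ν + 1) → ℂ) : Prop :=
  ∀ i j, x j ≠ 0 → ∃ P : MvPolynomial (Fin 2) k, P ≠ 0 ∧ P.totalDegree ≤ D ∧
    aeval ![t, x i / x j] P = 0

theorem isAlgebraic_of_rel {k : Type} [Field k] [Algebra k ℂ] {t c : ℂ} (ht : Transcendental k t)
    {P : MvPolynomial (Fin 2) k} (hP : P ≠ 0) (h : aeval ![t, c] P = 0) :
    IsAlgebraic (IntermediateField.adjoin k {t}) c := by
  classical
  set F₁ := IntermediateField.adjoin k {t} with hF₁
  let t' : F₁ := ⟨t, IntermediateField.subset_adjoin k {t} rfl⟩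
  have ht' : Transcendental k t' := by
    intro h0
    exact ht (IsAlgebraic.algHom F₁.val h0)
  let φ : MvPolynomial (Fin 1) k →ₐ[k] F₁ := aeval fun _ => t'
  have hφ : Function.Injective φ := by
    have h1 : AlgebraicIndependent k (fun _ : Fin 1 => t') :=
      algebraicIndependent_unique_type_iff.2 ht'
    exact h1
  let σ : Fin 2 → Fin 2 := Equiv.swap 0 1
  have hσ : Function.Injective σ := (Equiv.swap 0 1).injective
  have key : ∀ P : MvPolynomial (Fin 2) k, Polynomial.aeval c (Polynomial.map
      (φ : MvPolynomial (Fin 1) k →+* F₁) (finSuccEquiv k 1 (rename σ P))) = aeval ![t, c] P := by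
    intro P
    induction P using MvPolynomial.induction_on with
    | C a =>
      rw [rename_C, aeval_C]
      have h1 : finSuccEquiv k 1 (C a) = Polynomial.C (C a) := by
        have := (finSuccEquiv k 1).commutes a
        simpa using this
      rw [h1, Polynomial.map_C, Polynomial.aeval_C]
      have h2 : (φ : MvPolynomial (Fin 1) k →+* F₁) (C a) = algebraMap k F₁ a := by
        change φ (C a) = _
        exact φ.commutes a
      rw [h2, ← IsScalarTower.algebraMap_apply]
    | add p q hp hq =>
      simp only [map_add, Polynomial.map_add, hp, hq]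
    | mul_X p i hp =>
      simp only [map_mul, Polynomial.map_mul, hp, rename_X, aeval_X]
      congr 1
      fin_cases i
      · have h1 : σ 0 = Fin.succ 0 := by decide
        change Polynomial.aeval c (Polynomial.map _ (finSuccEquiv k 1 (X (σ 0)))) = t
        rw [h1, finSuccEquiv_X_succ, Polynomial.map_C, Polynomial.aeval_C]
        have h2 : (φ : MvPolynomial (Fin 1) k →+* F₁) (X 0) = t' := by
          change φ (X 0) = _
          exact aeval_X _ _
        rw [h2]
        rfl
      · have h1 : σ 1 = 0 := by decide
        change Polynomial.aeval c (Polynomial.map _ (finSuccEquiv k 1 (X (σ 1)))) = c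
        rw [h1, finSuccEquiv_X_zero, Polynomial.map_X, Polynomial.aeval_X]
  refine ⟨Polynomial.map (φ : MvPolynomial (Fin 1) k →+* F₁) (finSuccEquiv k 1 (rename σ P)),
    ?_, by rw [key, h]⟩
  intro h0
  have h1 := (Polynomial.map_eq_zero_iff (f := (φ : MvPolynomial (Fin 1) k →+* F₁)) hφ).1 h0
  have h2 : rename σ P = 0 := by
    have := (map_eq_zero_iff (finSuccEquiv k 1) (finSuccEquiv k 1).injective).1 h1
    exact this
  exact hP ((map_eq_zero_iff (rename σ) (rename_injective σ hσ)).1 h2)

/-- Finitely many numbers which are algebraic over `k(t)` lie in a function field of one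
variable. -/
theorem exists_field_of_algebraic {k : Type} [Field k] [IsAlgClosed k] [Algebra k ℂ] {t : ℂ}
    (ht : t ∉ Set.range (algebraMap k ℂ)) {s : Set ℂ} (hs : s.Finite) (hsa : ∀ c ∈ s, Alg k t c) :
    IsFunctionField k (IntermediateField.adjoin k (insert t s)) := by
  have htr : Transcendental k t := by
    intro h
    obtain ⟨c, hc⟩ := emb_mem_range h
    exact ht ⟨c, hc⟩
  set K := IntermediateField.adjoin k (insert t s) with hK
  refine ⟨IntermediateField.essFiniteType_iff.2
    (IntermediateField.fg_adjoin_of_finite (hs.insert t)), ?_⟩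
  apply le_antisymm
  · set F₁ := IntermediateField.adjoin k {t} with hF₁
    let A : IntermediateField F₁ ℂ := algebraicClosure F₁ ℂ
    have h1 : Algebra.trdeg k A = 1 ∨ Algebra.trdeg k A ≤ 1 := by
      right
      have h2 := trdeg_add_eq k F₁ (A := A)
      have h3 : Algebra.trdeg F₁ A = 0 := trdeg_eq_zero
      rw [h3, add_zero] at h2
      rw [← h2]
      have h4 := emb_trdeg_le (k := k) ({t} : Set ℂ)
      rwa [Cardinal.mk_singleton] at h4
    have hle : K ≤ A.restrictScalars k := by
      rw [hK, IntermediateField.adjoin_le_iff]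
      intro c hc
      change c ∈ A
      rw [mem_algebraicClosure_iff]
      rcases hc with rfl | hc
      · exact isAlgebraic_algebraMap (R := F₁) (A := ℂ)
          (⟨c, IntermediateField.subset_adjoin k {c} rfl⟩ : F₁)
      · obtain ⟨P, hP, h⟩ := hsa c hc
        exact isAlgebraic_of_rel htr hP h
    have h5 := trdeg_le_of_injective (IntermediateField.inclusion hle)
      (IntermediateField.inclusion_injective hle)
    rcases h1 with h1 | h1
    · exact h5.trans h1.le
    · exact h5.trans h1
  · rw [Cardinal.one_le_iff_ne_zero, trdeg_ne_zero_iff]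
    refine ⟨⟨⟨t, IntermediateField.subset_adjoin k _ (Set.mem_insert _ _)⟩, ?_⟩⟩
    intro h
    exact htr (IsAlgebraic.algHom K.val h)

end Pool.Agent.Helper38.TQK
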