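import Pool.Agent.Helper30.TKN.Defs

/-!
# Heights of forms in several variables, and the Jacobian determinant
-/

set_option autoImplicit false

namespace Pool.Agent.Helper30.TKN

open MvPolynomial
open Pool.Agent.Helper16 (Place IsFunctionField)
open Pool.Agent.Helper36 (step iter)
open Pool.Agent.Helper38.TQ

variable {ν : ℕ}

section

variable {k K : Type} [Field k] [Field K] [Algebra k K]

/-- The maximum norm of a polynomial at a place. -/
noncomputable def gs (b : Place k K) (P : MvPolynomial (Fin (ν + 1)) K) :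
    WithZero (Multiplicative ℤ) :=
  P.support.sup fun m => b.val (P.coeff m)

theorem formHeight_le (b : Place k K) (P : MvPolynomial (Fin (ν + 1)) K)
    (m : Fin (ν + 1) →₀ ℕ) : b.val (P.coeff m) ≤ gs b P := by
  by_cases h : m ∈ P.support
  · exact Finset.le_sup (f := fun m => b.val (P.coeff m)) h
  · rw [notMem_support_iff.1 h, map_zero]
    exact zero_le

theorem formHeight_gs_le {b : Place k K} {P : MvPolynomial (Fin (ν + 1)) K}
    {c : WithZero (Multiplicative ℤ)} (h : ∀ m, b.val (P.coeff m) ≤ c) : gs b P ≤ c :=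
  Finset.sup_le fun m _ => h m

theorem formHeight_exists {b : Place k K} {P : MvPolynomial (Fin (ν + 1)) K} (hP : P ≠ 0) :
    ∃ m, P.coeff m ≠ 0 ∧ gs b P = b.val (P.coeff m) := by
  obtain ⟨m, hm, h⟩ := Finset.exists_mem_eq_sup P.support (support_nonempty.2 hP)
    (fun m => b.val (P.coeff m))
  exact ⟨m, mem_support_iff.1 hm, h⟩

theorem formHeight_pos {b : Place k K} {P : MvPolynomial (Fin (ν + 1)) K} (hP : P ≠ 0) :
    0 < gs b P := by
  obtain ⟨m, hm, h⟩ := formHeight_exists (b := b) hP
  rw [h]
  exact zero_lt_iff.2 (by simpa using hm)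

theorem formHeight_zero (b : Place k K) : gs b (0 : MvPolynomial (Fin (ν + 1)) K) = 0 := by
  unfold gs
  rw [support_zero, Finset.sup_empty]
  rfl

theorem formHeight_support [IsAlgClosed k] (hK : IsFunctionField k K)
    {P : MvPolynomial (Fin (ν + 1)) K} (hP : P ≠ 0) :
    (Function.support fun b : Place k K => WithZero.log (gs b P)).Finite := by
  classical
  have h1 : (⋃ m ∈ P.support,
      Function.support fun b : Place k K => WithZero.log (b.val (P.coeff m))).Finite :=
    Set.Finite.biUnion (Finset.finite_toSet _)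
      fun m hm => (finsum_log hK _ (mem_support_iff.1 hm)).1
  refine h1.subset fun b hb => ?_
  obtain ⟨m, hm, h⟩ := formHeight_exists (b := b) hP
  simp only [Set.mem_iUnion]
  refine ⟨m, mem_support_iff.2 hm, ?_⟩
  rw [Function.mem_support] at hb ⊢
  rwa [← h]

/-- The size of the value of a form. -/
theorem low_val_eval_le (b : Place k K) {P : MvPolynomial (Fin (ν + 1)) K} {e : ℕ}
    (hP : P.IsHomogeneous e) (y : Fin (ν + 1) → K) :
    b.val (eval y P) ≤ gs b P * nrm b y ^ e := by
  rw [eval_eq]
  refine b.val.map_sum_le fun m hm => ?_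
  have hd : ∑ i ∈ m.support, m i = e := by
    have := hP (MvPolynomial.mem_support_iff.1 hm)
    rw [Finsupp.weight_apply] at this
    simpa [Finsupp.sum] using this
  rw [map_mul, map_prod]
  refine mul_le_mul' (formHeight_le b P m) ?_
  rw [← hd, ← Finset.prod_pow_eq_pow_sum]
  refine Finset.prod_le_prod' fun i _ => ?_
  rw [map_pow]
  exact pow_le_pow_left' (val_le_nrm b y i) _

/-- The height is nonnegative. -/
theorem low_ht_nonneg [IsAlgClosed k] (hK : IsFunctionField k K) {x : Fin (ν + 1) → K}
    (hx : x ≠ 0) : 0 ≤ ht k x := by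
  obtain ⟨i0, hi0⟩ : ∃ i, x i ≠ 0 := by
    by_contra h
    push Not at h
    exact hx (funext h)
  rw [← ht_smul hK (inv_ne_zero hi0) hx]
  unfold ht
  refine finsum_nonneg fun b => ?_
  have h1 : (1 : WithZero (Multiplicative ℤ)) ≤ nrm b ((x i0)⁻¹ • x) := by
    have := val_le_nrm b ((x i0)⁻¹ • x) i0
    rwa [Pi.smul_apply, smul_eq_mul, inv_mul_cancel₀ hi0, map_one] at this
  rw [← WithZero.log_one, WithZero.log_le_log one_ne_zero (lt_of_lt_of_le zero_lt_one h1).ne']
  exact h1

end

theorem eval_jf {k : Type} [Field k] (F : Fin (ν + 1) → MvPolynomial (Fin (ν + 1)) k)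
    (z : Fin (ν + 1) → k) : eval z (jf F) = (jac F z).det := by
  unfold jf jac
  rw [RingHom.map_det]
  rfl

theorem jf_hom {k : Type} [Field k] {d : ℕ} {F : Fin (ν + 1) → MvPolynomial (Fin (ν + 1)) k}
    (hF : ∀ i, (F i).IsHomogeneous d) : (jf F).IsHomogeneous ((ν + 1) * (d - 1)) := by
  unfold jf
  rw [Matrix.det_apply]
  refine IsHomogeneous.sum _ _ _ fun σ _ => ?_
  have h1 : (∏ i, (Matrix.of fun i j => pderiv j (F i)) (σ i) i).IsHomogeneous
      ((ν + 1) * (d - 1)) := by
    have h2 := IsHomogeneous.prod Finset.univ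
      (fun i => (Matrix.of fun i j => pderiv j (F i)) (σ i) i) (fun _ => d - 1)
      (fun i _ => (hF (σ i)).pderiv)
    simpa [Finset.sum_const, Finset.card_univ] using h2
  rcases Int.units_eq_one_or (Equiv.Perm.sign σ) with h | h
  · rw [h, one_smul]
    exact h1
  · rw [h, Units.neg_smul, one_smul]
    exact h1.neg

end Pool.Agent.Helper30.TKN
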