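import Pool.Agent.Helper38.TQK.Form

/-!
# Good reduction
-/

set_option autoImplicit false

namespace Pool.Agent.Helper30.TKN

open MvPolynomial
open Pool.Agent.Helper16 (Place IsFunctionField)
open Pool.Agent.Helper36 (step iter iter_zero iter_succ iter_succ' iter_add iter_map
  exists_nullstellensatz)
open Pool.Agent.Helper38.TQ

variable {ν : ℕ}

variable {k K : Type} [Field k] [Field K] [Algebra k K]

theorem RedP.unique {b : Place k K} {P : MvPolynomial (Fin (ν + 1)) K}
    {p q : MvPolynomial (Fin (ν + 1)) k}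
    (hp : RedP b P p) (hq : RedP b P q) : p = q := by
  ext m
  by_contra hne
  have h1 : p.coeff m - q.coeff m ≠ 0 := sub_ne_zero.2 hne
  have h2 := b.triv _ h1
  have h3 : algebraMap k K (p.coeff m - q.coeff m) =
      (P.coeff m - algebraMap k K (q.coeff m)) - (P.coeff m - algebraMap k K (p.coeff m)) := by
    rw [map_sub]; ring
  rw [h3] at h2
  have h4 := b.val.map_sub_lt (hq m) (hp m)
  rw [h2] at h4
  exact lt_irrefl _ h4

theorem RedP.integral {b : Place k K} {P : MvPolynomial (Fin (ν + 1)) K}
    {p : MvPolynomial (Fin (ν + 1)) k}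
    (hp : RedP b P p) (m : Fin (ν + 1) →₀ ℕ) : b.val (P.coeff m) ≤ 1 := by
  have h1 : P.coeff m = (P.coeff m - algebraMap k K (p.coeff m)) + algebraMap k K (p.coeff m) := by
    ring
  rw [h1]
  exact (b.val.map_add _ _).trans (max_le (hp m).le (b.val_algebraMap_le _))

theorem redP_map (b : Place k K) (p : MvPolynomial (Fin (ν + 1)) k) :
    RedP b (map (algebraMap k K) p) p := by
  intro m
  rw [coeff_map, sub_self, map_zero]
  exact zero_lt_one

theorem redP_C_X (b : Place k K) (i : Fin (ν + 1)) : RedP b (X i) (X i) := by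
  have h := redP_map b (X i : MvPolynomial (Fin (ν + 1)) k)
  rwa [map_X] at h

theorem RedP.add {b : Place k K} {P Q : MvPolynomial (Fin (ν + 1)) K}
    {p q : MvPolynomial (Fin (ν + 1)) k}
    (hp : RedP b P p) (hq : RedP b Q q) : RedP b (P + Q) (p + q) := by
  intro m
  have h1 : (P + Q).coeff m - algebraMap k K ((p + q).coeff m) =
      (P.coeff m - algebraMap k K (p.coeff m)) + (Q.coeff m - algebraMap k K (q.coeff m)) := by
    rw [coeff_add, coeff_add, map_add]; ring
  rw [h1]
  exact b.val.map_add_lt (hp m) (hq m)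

theorem RedP.neg {b : Place k K} {P : MvPolynomial (Fin (ν + 1)) K}
    {p : MvPolynomial (Fin (ν + 1)) k}
    (hp : RedP b P p) : RedP b (-P) (-p) := by
  intro m
  have h1 : (-P).coeff m - algebraMap k K ((-p).coeff m) =
      -(P.coeff m - algebraMap k K (p.coeff m)) := by
    rw [coeff_neg, coeff_neg, map_neg]; ring
  rw [h1, Valuation.map_neg]
  exact hp m

theorem redP_zero (b : Place k K) : RedP b (0 : MvPolynomial (Fin (ν + 1)) K) 0 := by
  intro m
  rw [coeff_zero, coeff_zero, map_zero, sub_zero, map_zero]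
  exact zero_lt_one

theorem redP_one (b : Place k K) : RedP b (1 : MvPolynomial (Fin (ν + 1)) K) 1 := by
  have h := redP_map b (1 : MvPolynomial (Fin (ν + 1)) k)
  rwa [map_one] at h

theorem RedP.mul {b : Place k K} {P Q : MvPolynomial (Fin (ν + 1)) K}
    {p q : MvPolynomial (Fin (ν + 1)) k}
    (hp : RedP b P p) (hq : RedP b Q q) : RedP b (P * Q) (p * q) := by
  classical
  intro m
  have h1 : (P * Q).coeff m - algebraMap k K ((p * q).coeff m) =
      ∑ x ∈ Finset.HasAntidiagonal.antidiagonal m, ((P.coeff x.1 - algebraMap k K (p.coeff x.1)) * Q.coeff x.2 +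
        (Q.coeff x.2 - algebraMap k K (q.coeff x.2)) * algebraMap k K (p.coeff x.1)) := by
    rw [coeff_mul, coeff_mul, map_sum, ← Finset.sum_sub_distrib]
    refine Finset.sum_congr rfl fun x _ => ?_
    rw [map_mul]; ring
  rw [h1]
  refine b.val.map_sum_lt one_ne_zero fun x _ => ?_
  refine b.val.map_add_lt ?_ ?_
  · rw [map_mul]
    exact mul_lt_one_of_lt_of_le (hp _) (hq.integral _)
  · rw [map_mul]
    exact mul_lt_one_of_lt_of_le (hq _) (b.val_algebraMap_le _)

theorem RedP.sum {b : Place k K} {ι : Type} (s : Finset ι)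
    {P : ι → MvPolynomial (Fin (ν + 1)) K}
    {p : ι → MvPolynomial (Fin (ν + 1)) k} (h : ∀ i ∈ s, RedP b (P i) (p i)) :
    RedP b (∑ i ∈ s, P i) (∑ i ∈ s, p i) := by
  classical
  induction s using Finset.induction_on with
  | empty => rw [Finset.sum_empty, Finset.sum_empty]; exact redP_zero b
  | insert a s ha ih =>
    rw [Finset.sum_insert ha, Finset.sum_insert ha]
    exact (h a (Finset.mem_insert_self _ _)).add (ih fun i hi => h i (Finset.mem_insert_of_mem hi))

theorem RedP.prod {b : Place k K} {ι : Type} (s : Finset ι)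
    {P : ι → MvPolynomial (Fin (ν + 1)) K}
    {p : ι → MvPolynomial (Fin (ν + 1)) k} (h : ∀ i ∈ s, RedP b (P i) (p i)) :
    RedP b (∏ i ∈ s, P i) (∏ i ∈ s, p i) := by
  classical
  induction s using Finset.induction_on with
  | empty => rw [Finset.prod_empty, Finset.prod_empty]; exact redP_one b
  | insert a s ha ih =>
    rw [Finset.prod_insert ha, Finset.prod_insert ha]
    exact (h a (Finset.mem_insert_self _ _)).mul (ih fun i hi => h i (Finset.mem_insert_of_mem hi))

theorem RedP.pow {b : Place k K} {P : MvPolynomial (Fin (ν + 1)) K}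
    {p : MvPolynomial (Fin (ν + 1)) k}
    (hp : RedP b P p) (n : ℕ) : RedP b (P ^ n) (p ^ n) := by
  induction n with
  | zero => rw [pow_zero, pow_zero]; exact redP_one b
  | succ n ih => rw [pow_succ, pow_succ]; exact ih.mul hp

theorem RedP.pderiv {b : Place k K} {P : MvPolynomial (Fin (ν + 1)) K}
    {p : MvPolynomial (Fin (ν + 1)) k}
    (hp : RedP b P p) (j : Fin (ν + 1)) :
    RedP b (MvPolynomial.pderiv j P) (MvPolynomial.pderiv j p) := by
  intro m
  rw [coeff_pderiv, coeff_pderiv]
  have h1 : ∀ (c : k), algebraMap k K (c * ((m j : k) + 1)) =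
      algebraMap k K c * algebraMap k K ((m j : k) + 1) := fun c => map_mul _ _ _
  have h2 : ((m j : K) + 1) = algebraMap k K ((m j : k) + 1) := by simp
  rw [h1, h2, ← sub_mul, map_mul]
  exact mul_lt_one_of_lt_of_le (hp _) (b.val_algebraMap_le _)

/-- The Jacobian determinant specialises. -/
theorem redP_jf {b : Place k K} {F : Fin (ν + 1) → MvPolynomial (Fin (ν + 1)) K}
    {f : Fin (ν + 1) → MvPolynomial (Fin (ν + 1)) k} (h : ∀ i, RedP b (F i) (f i)) :
    RedP b (jf F) (jf f) := by
  unfold jf
  rw [Matrix.det_apply, Matrix.det_apply]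
  refine RedP.sum _ fun σ _ => ?_
  have h1 : RedP b (∏ i, (Matrix.of fun i j => MvPolynomial.pderiv j (F i)) (σ i) i)
      (∏ i, (Matrix.of fun i j => MvPolynomial.pderiv j (f i)) (σ i) i) :=
    RedP.prod _ fun i _ => (h (σ i)).pderiv i
  rcases Int.units_eq_one_or (Equiv.Perm.sign σ) with h2 | h2
  · rw [h2, one_smul, one_smul]
    exact h1
  · rw [h2, Units.neg_smul, one_smul, Units.neg_smul, one_smul]
    exact h1.neg

/-- Specialisation of values. -/
theorem RedP.eval {b : Place k K} {P : MvPolynomial (Fin (ν + 1)) K}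
    {p : MvPolynomial (Fin (ν + 1)) k}
    (hp : RedP b P p) {u : Fin (ν + 1) → K} {z : Fin (ν + 1) → k}
    (hu : ∀ i, b.val (u i - algebraMap k K (z i)) < 1) :
    b.val (MvPolynomial.eval u P - algebraMap k K (MvPolynomial.eval z p)) < 1 := by
  have hu1 : ∀ i, b.val (u i) ≤ 1 := by
    intro i
    have h1 : u i = (u i - algebraMap k K (z i)) + algebraMap k K (z i) := by ring
    rw [h1]
    exact (b.val.map_add _ _).trans (max_le (hu i).le (b.val_algebraMap_le _))
  have h1 := (val_aeval_sub_lt b u z hu p).2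
  have h2 : aeval u p = MvPolynomial.eval u (map (algebraMap k K) p) := (eval_map_k p u).symm
  have h3 : aeval z p = MvPolynomial.eval z p :=
    congrArg (fun φ => φ p) (coe_aeval_eq_eval z)
  rw [h2, h3] at h1
  have h4 : MvPolynomial.eval u P - algebraMap k K (MvPolynomial.eval z p) =
      MvPolynomial.eval u (P - map (algebraMap k K) p) +
        (MvPolynomial.eval u (map (algebraMap k K) p) -
          algebraMap k K (MvPolynomial.eval z p)) := by
    rw [map_sub]; ring
  rw [h4]
  refine b.val.map_add_lt ?_ h1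
  rw [eval_eq]
  refine b.val.map_sum_lt one_ne_zero fun m _ => ?_
  rw [map_mul, map_prod]
  refine mul_lt_one_of_lt_of_le ?_ ?_
  · rw [coeff_sub, coeff_map]
    exact hp m
  · refine Finset.prod_le_one' fun i _ => ?_
    rw [map_pow]
    exact pow_le_one' (hu1 i) _

theorem redP_exists [IsAlgClosed k] (hK : IsFunctionField k K) (b : Place k K)
    {P : MvPolynomial (Fin (ν + 1)) K} {e : ℕ} (hP : P.IsHomogeneous e)
    (h : ∀ m, b.val (P.coeff m) ≤ 1) : ∃ p, RedP b P p ∧ p.IsHomogeneous e := by
  classical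
  have h1 : ∀ m, ∃ c : k, b.val (P.coeff m - algebraMap k K c) < 1 ∧
      (P.coeff m = 0 → c = 0) := by
    intro m
    by_cases h0 : P.coeff m = 0
    · exact ⟨0, by simp [h0], fun _ => rfl⟩
    · obtain ⟨c, hc⟩ := exists_residue hK b (P.coeff m) (h m)
      exact ⟨c, hc, fun h => absurd h h0⟩
  choose c hc hc0 using h1
  have h2 : ∀ m, (∑ n ∈ P.support, monomial n (c n)).coeff m = c m := by
    intro m
    rw [coeff_sum]
    simp only [coeff_monomial]
    rw [Finset.sum_ite_eq']
    split_ifs with h
    · rfl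
    · exact (hc0 m (notMem_support_iff.1 h)).symm
  refine ⟨∑ n ∈ P.support, monomial n (c n), fun m => ?_, ?_⟩
  · rw [h2]
    exact hc m
  · refine IsHomogeneous.sum _ _ _ fun n hn => ?_
    refine isHomogeneous_monomial _ ?_
    have := hP (mem_support_iff.1 hn)
    rw [← this, Finsupp.degree_eq_weight_one]
    rfl

end Pool.Agent.Helper30.TKN
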