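import Pool.Agent.Helper30.TKN.TruncN
import Pool.Agent.Helper38.TQK.JacK
import Pool.Agent.Helper38.TQK.Growth

/-!
# The points of an orbit on a curve over a function field
-/

set_option autoImplicit false

namespace Pool.Agent.Helper38.TQK

open MvPolynomial
open Pool.Agent.Helper16 (Place IsFunctionField)
open Pool.Agent.Helper36 (step iter iter_zero iter_succ iter_succ' iter_add iter_map)
open Pool.Agent.Helper38.TQ
open Pool.Agent.Helper30.TKN

variable {ν : ℕ}

/-- An orbit of unbounded height, which meets the critical set only finitely often and specialises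
to no cycle outside the critical set, has no infinite set of points on a curve. -/
theorem no_curve {k K : Type} [Field k] [IsAlgClosed k] [CharZero k] [Field K] [Algebra k K]
    [Algebra K ℂ] (hK : IsFunctionField k K) {d : ℕ}
    {F : Fin (ν + 1) → MvPolynomial (Fin (ν + 1)) K}
    (hF : IsEndo d fun i => map (algebraMap K ℂ) (F i))
    {x : Fin (ν + 1) → K} (hx : x ≠ 0) (hunb : ∀ B : ℤ, ∃ n, B < ht k (iter F x n))
    (hcrit : {n | eval (iter F x n) (jf F) = 0}.Finite) (hne : NoEtale k d F x)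
    {U : Ultrafilter ℕ} (hU : Free U) (hcurve : OnCurve U (iter F x)) : False := by
  classical
  have hne0 : ∀ n, iter F x n ≠ 0 := fun n => iter_ne_zeroK hF hx n
  have hdist := distinct_of_unbounded hK hF hx hunb
  have hhom : ∀ i, (F i).IsHomogeneous d := fun i => homog_of_endo hF i
  have hd : 1 ≤ d := by have := hF.two_le; omega
  have hht : ∀ B : ℤ, {n | ht k (iter F x n) ≤ B}.Finite := by
    intro B
    obtain ⟨n₁, hn₁⟩ := ht_growth hK hF hx hunb |B|
    refine (Set.finite_lt_nat n₁).subset fun n hn => ?_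
    by_contra hcon
    have h1 := hn₁ n (not_lt.1 hcon)
    have h2 : ht k (iter F x n) ≤ B := hn
    have h3 : B ≤ |B| := le_abs_self B
    have h4 : 0 ≤ |B| * (n : ℤ) := mul_nonneg (abs_nonneg B) (by positivity)
    rw [mul_add, mul_one] at h1
    linarith
  obtain ⟨n₀, hn₀⟩ : ∃ n₀, ∀ n, n₀ ≤ n → eval (iter F x n) (jf F) ≠ 0 := by
    obtain ⟨m, hm⟩ := hcrit.bddAbove
    refine ⟨m + 1, fun n hn h => ?_⟩
    have := hm h
    omega
  obtain ⟨S', Γ, C₁, hS', hΓ, hmain⟩ := trunc_curve hK hne0 hdist hht hU hcurve (ν + 2) n₀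
  have hbad := good_finite (k := k) hK hF
  obtain ⟨C₂, hC₂⟩ := finsum_joK_le hK hhom hd {b : Place k K | ¬ Good d b F} hbad
  obtain ⟨C₃, hC₃, hsum⟩ := sum_ht_le hK hF hx
  obtain ⟨n₁, hn₁⟩ := ht_growth hK hF hx hunb
    ((hbad.toFinset.card : ℤ) + |C₁| + |C₂| + ((ν : ℤ) + 1) * C₃)
  obtain ⟨n, hnS, hnl⟩ := hS'.exists_gt (max (max n₀ n₁) (Γ.sup id))
  have hnn₀ : n₀ < n := lt_of_le_of_lt ((le_max_left _ _).trans (le_max_left _ _)) hnl
  have hnn₁ : n₁ < n := lt_of_le_of_lt ((le_max_right _ _).trans (le_max_left _ _)) hnl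
  have hnΓ' : ∀ i ∈ Γ, i < n := fun i hi =>
    lt_of_le_of_lt ((Finset.le_sup (f := id) hi).trans (le_max_right _ _)) hnl
  obtain ⟨hnΓ, htr⟩ := hmain n hnS
  set T : Set (Place k K) := {b | ∃ i ∈ Γ, Same b (iter F x i) (iter F x n)} with hT
  have hTfin : T.Finite := by
    have h2 : T = ⋃ i ∈ Γ, {b : Place k K | Same b (iter F x i) (iter F x n)} := by
      ext b
      simp [hT]
    rw [h2]
    exact Set.Finite.biUnion Γ.finite_toSet fun i hi =>
      same_finite hK (hne0 i) (hne0 n) (hdist i n fun h => hnΓ (h ▸ hi))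
  set G : Finset (Place k K) := hTfin.toFinset \ hbad.toFinset with hG
  have hJl : ∀ l, n₀ ≤ l → eval (iter F x l) (jf F) ≠ 0 := hn₀
  -- each good place counts
  have h1 : ∀ b ∈ G, 1 ≤ ∑ l ∈ Finset.Ico n₀ n, joK d F b (iter F x l) := by
    intro b hb
    rw [hG, Finset.mem_sdiff, Set.Finite.mem_toFinset, Set.Finite.mem_toFinset] at hb
    obtain ⟨⟨i, hi, hsame⟩, hgood⟩ := hb
    have hgood' : Good d b F := not_not.1 hgood
    have h2 := one_le_sum_joK hK hhom hne0 hne hgood' (hnΓ' i hi) hsame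
      fun l hl _ => hJl l ((hΓ i hi).trans hl)
    refine h2.trans (Finset.sum_le_sum_of_subset_of_nonneg
      (Finset.Ico_subset_Ico (hΓ i hi) le_rfl) fun l hl _ => ?_)
    rw [Finset.mem_Ico] at hl
    exact joK_nonneg hhom hd hgood' (hJl l hl.1)
  have h2 : (G.card : ℤ) ≤ ∑ l ∈ Finset.Ico n₀ n, ∑ b ∈ G, joK d F b (iter F x l) := by
    rw [Finset.sum_comm]
    have := Finset.card_nsmul_le_sum G
      (fun b => ∑ l ∈ Finset.Ico n₀ n, joK d F b (iter F x l)) 1 h1
    simpa using this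
  have h3 : ∀ l ∈ Finset.Ico n₀ n, ∑ b ∈ G, joK d F b (iter F x l) ≤
      ((ν : ℤ) + 1) * ((d : ℤ) - 1) * ht k (iter F x l) + C₂ := by
    intro l hl
    rw [Finset.mem_Ico] at hl
    obtain ⟨hs, hle⟩ := hC₂ (iter F x l) (hne0 l) (hJl l hl.1)
    refine le_trans ?_ hle
    have h4 : ∑ b ∈ G, joK d F b (iter F x l) = ∑ b ∈ G,
        Set.indicator {b : Place k K | ¬ Good d b F}ᶜ (fun b => joK d F b (iter F x l)) b := by
      refine Finset.sum_congr rfl fun b hb => ?_
      rw [hG, Finset.mem_sdiff, Set.Finite.mem_toFinset, Set.Finite.mem_toFinset] at hb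
      rw [Set.indicator_of_mem]
      exact hb.2
    rw [h4, finsum_eq_sum_of_support_subset _ (s := hs.toFinset ∪ G)
      (fun b hb => Finset.mem_coe.2 (Finset.mem_union_left _ (hs.mem_toFinset.2 hb)))]
    refine Finset.sum_le_sum_of_subset_of_nonneg Finset.subset_union_right fun b _ _ => ?_
    by_cases hb : b ∈ {b : Place k K | ¬ Good d b F}ᶜ
    · rw [Set.indicator_of_mem hb]
      exact joK_nonneg hhom hd (not_not.1 hb) (hJl l hl.1)
    · rw [Set.indicator_of_notMem hb]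
  have h4 : (G.card : ℤ) ≤ ((ν : ℤ) + 1) * (ht k (iter F x n) + C₃ * (n + 1)) +
      (n - n₀ : ℕ) * C₂ := by
    refine h2.trans ((Finset.sum_le_sum h3).trans ?_)
    rw [Finset.sum_add_distrib, Finset.sum_const, Nat.card_Ico, nsmul_eq_mul]
    refine add_le_add ?_ le_rfl
    have h5 := hsum n₀ n hnn₀.le
    have h6 : ∑ l ∈ Finset.Ico n₀ n, ((ν : ℤ) + 1) * ((d : ℤ) - 1) * ht k (iter F x l) =
        ((ν : ℤ) + 1) * (((d : ℤ) - 1) * ∑ l ∈ Finset.Ico n₀ n, ht k (iter F x l)) := by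
      rw [← Finset.mul_sum, mul_assoc]
    rw [h6]
    exact mul_le_mul_of_nonneg_left h5 (by positivity)
  have h5 : (T.ncard : ℤ) ≤ G.card + hbad.toFinset.card := by
    rw [Set.ncard_eq_toFinset_card T hTfin]
    have h6 : hTfin.toFinset ⊆ G ∪ hbad.toFinset := by
      intro b hb
      rw [Finset.mem_union]
      by_cases h7 : b ∈ hbad.toFinset
      · exact Or.inr h7
      · exact Or.inl (Finset.mem_sdiff.2 ⟨hb, h7⟩)
    exact_mod_cast (Finset.card_le_card h6).trans (Finset.card_union_le _ _)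
  have h6 := hn₁ n hnn₁.le
  have h7 : ((n - n₀ : ℕ) : ℤ) * C₂ ≤ |C₂| * (n + 1) := by
    have h8 : ((n - n₀ : ℕ) : ℤ) ≤ (n : ℤ) + 1 := by
      have : (n - n₀ : ℕ) ≤ n + 1 := by omega
      exact_mod_cast this
    calc ((n - n₀ : ℕ) : ℤ) * C₂ ≤ ((n - n₀ : ℕ) : ℤ) * |C₂| :=
          mul_le_mul_of_nonneg_left (le_abs_self _) (by positivity)
      _ ≤ ((n : ℤ) + 1) * |C₂| := mul_le_mul_of_nonneg_right h8 (abs_nonneg _)
      _ = _ := mul_comm _ _
  have h8 : C₁ ≤ |C₁| * (n + 1) := by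
    have h9 : 0 ≤ |C₁| * (n : ℤ) := mul_nonneg (abs_nonneg _) (by positivity)
    have h10 : C₁ ≤ |C₁| := le_abs_self _
    rw [mul_add, mul_one]
    linarith
  have h9 : (hbad.toFinset.card : ℤ) ≤ hbad.toFinset.card * (n + 1) := by
    have h10 : (0 : ℤ) ≤ hbad.toFinset.card * (n : ℤ) := by positivity
    rw [mul_add, mul_one]
    linarith
  push_cast at htr
  nlinarith

end Pool.Agent.Helper38.TQK
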