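import Mathlib
import Pool.Agent.Helper30.TP.Final
import Pool.Agent.Helper38.TQK.Wrap
import Pool.Agent.Helper38.TQK.Const
import Pool.Agent.Helper38.TQ.Final2

/-!
# MP_b15c9e_ag: transcendental points and points over function fields (draft)
-/

set_option autoImplicit false

namespace Pool.Agent.Helper38.TQK.Res

open MvPolynomial

/-- The forms `f` of degree `d ≥ 2` have no common zero, so define an endomorphism of projective
space `P^N`. -/
def Endomorphism {N : ℕ} (d : ℕ) (f : Fin (N + 1) → MvPolynomial (Fin (N + 1)) ℂ) : Prop :=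
  2 ≤ d ∧ (∀ i, (f i).IsHomogeneous d) ∧ ∀ x : Fin (N + 1) → ℂ, (∀ i, eval x (f i) = 0) → x = 0

/-- The `n`-th iterate of `a`. -/
noncomputable def orbit {N : ℕ} (f : Fin (N + 1) → MvPolynomial (Fin (N + 1)) ℂ)
    (a : Fin (N + 1) → ℂ) (n : ℕ) : Fin (N + 1) → ℂ :=
  (fun x : Fin (N + 1) → ℂ => fun i => eval x (f i))^[n] a

/-- The return set of `a` to the common zeros of the forms in `S`. -/
def returnSet {N : ℕ} (f : Fin (N + 1) → MvPolynomial (Fin (N + 1)) ℂ) (a : Fin (N + 1) → ℂ)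
    (S : Set (MvPolynomial (Fin (N + 1)) ℂ)) : Set ℕ :=
  {n : ℕ | ∀ g ∈ S, eval (orbit f a n) g = 0}

/-- A finite union of arithmetic progressions. -/
def FiniteUnion (R : Set ℕ) : Prop :=
  ∃ T : Finset (ℕ × ℕ), R = {n : ℕ | ∃ p ∈ T, ∃ m : ℕ, n = p.1 * m + p.2}

/-- The closed set defined by the forms in `S` has dimension at most one (the cone over it has
Krull dimension at most two), or the projective space has dimension at most two. -/
def SmallDim {N : ℕ} (S : Set (MvPolynomial (Fin (N + 1)) ℂ)) : Prop :=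
  N ≤ 2 ∨ ringKrullDim (MvPolynomial (Fin (N + 1)) ℂ ⧸ Ideal.span S) ≤ 2

/-- The Jacobian determinant of the forms vanishes at `x`. -/
def Critical {N : ℕ} (f : Fin (N + 1) → MvPolynomial (Fin (N + 1)) ℂ)
    (x : Fin (N + 1) → ℂ) : Prop :=
  (Matrix.of fun i j => eval x (pderiv j (f i))).det = 0

/-- The map has coefficients in `k`. -/
def MapOver {N : ℕ} (k : Subfield ℂ) (f : Fin (N + 1) → MvPolynomial (Fin (N + 1)) ℂ) : Prop :=
  ∀ i m, (f i).coeff m ∈ k

/-- The point `a` of projective space has homogeneous coordinates in `k`. -/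
def DefinedOver {N : ℕ} (k : Subfield ℂ) (a : Fin (N + 1) → ℂ) : Prop :=
  ∃ c : ℂ, c ≠ 0 ∧ ∀ i, c * a i ∈ k

/-- The number `c` is algebraic over `k(t)` (for `t ∉ k`). -/
def AlgebraicOver (k : Subfield ℂ) (t c : ℂ) : Prop :=
  ∃ P : MvPolynomial (Fin 2) k, P ≠ 0 ∧ aeval ![t, c] P = 0

/-- All quotients of coordinates of `x` satisfy with `t` relations over `k` of degree at most
`D`. -/
def HeightLe {N : ℕ} (k : Subfield ℂ) (t : ℂ) (D : ℕ) (x : Fin (N + 1) → ℂ) : Prop :=
  ∀ i j, x j ≠ 0 → ∃ P : MvPolynomial (Fin 2) k, P ≠ 0 ∧ P.totalDegree ≤ D ∧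
    aeval ![t, x i / x j] P = 0

/-- The map and the point are defined over a finite extension of `k(t)`, with `t ∉ k`, and the
heights of the points of the orbit over `k(t)` are not bounded. -/
def UnboundedHeights {N : ℕ} (k : Subfield ℂ) (f : Fin (N + 1) → MvPolynomial (Fin (N + 1)) ℂ)
    (a : Fin (N + 1) → ℂ) : Prop :=
  ∃ t : ℂ, t ∉ k ∧ (∀ i m, AlgebraicOver k t ((f i).coeff m)) ∧ (∀ i, AlgebraicOver k t (a i)) ∧
    ∀ D : ℕ, ∃ n : ℕ, ¬ HeightLe k t D (orbit f a n)

theorem isEndo {N : ℕ} {d : ℕ} {f : Fin (N + 1) → MvPolynomial (Fin (N + 1)) ℂ}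
    (h : Endomorphism d f) : Pool.Agent.Helper38.TQ.IsEndo d f := ⟨h.1, h.2.1, h.2.2⟩

/-- A proper closed subset of a projective space of dimension at most two has dimension at most
one. -/
theorem krullDim_le_two {N : ℕ} (hN : N ≤ 2) (S : Set (MvPolynomial (Fin (N + 1)) ℂ))
    {g : MvPolynomial (Fin (N + 1)) ℂ} (hg : g ∈ S) (hg0 : g ≠ 0) :
    ringKrullDim (MvPolynomial (Fin (N + 1)) ℂ ⧸ Ideal.span S) ≤ 2 := by
  have h1 : ringKrullDim (MvPolynomial (Fin (N + 1)) ℂ ⧸ Ideal.span {g}) + 1 ≤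
      ringKrullDim (MvPolynomial (Fin (N + 1)) ℂ) :=
    ringKrullDim_quotient_succ_le_of_nonZeroDivisor (mem_nonZeroDivisors_of_ne_zero hg0)
  rw [MvPolynomial.ringKrullDim_of_isNoetherianRing, ringKrullDim_eq_zero_of_field, zero_add,
    Nat.card_fin] at h1
  have hle : Ideal.span {g} ≤ Ideal.span S := Ideal.span_mono (by simpa using hg)
  have h2 : ringKrullDim (MvPolynomial (Fin (N + 1)) ℂ ⧸ Ideal.span S) ≤
      ringKrullDim (MvPolynomial (Fin (N + 1)) ℂ ⧸ Ideal.span {g}) :=
    ringKrullDim_le_of_surjective (Ideal.Quotient.factor hle)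
      (Ideal.Quotient.factor_surjective hle)
  refine h2.trans ?_
  have h3 : ((N + 1 : ℕ) : WithBot ℕ∞) ≤ 2 + 1 := by
    have : (N + 1 : ℕ) ≤ 3 := by omega
    calc ((N + 1 : ℕ) : WithBot ℕ∞) ≤ ((3 : ℕ) : WithBot ℕ∞) := by exact_mod_cast this
      _ = 2 + 1 := by norm_num
  have h4 := h1.trans h3
  generalize ringKrullDim (MvPolynomial (Fin (N + 1)) ℂ ⧸ Ideal.span {g}) = D at h4
  induction D using WithBot.recBotCoe with
  | bot => exact bot_le
  | coe D =>
    have h5 : D + 1 ≤ 2 + 1 := WithBot.coe_le_coe.1 h4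
    have h6 : D ≤ 2 := (ENat.add_le_add_iff_right ENat.one_ne_top).1 h5
    exact WithBot.coe_le_coe.2 h6

theorem finiteUnion_univ : FiniteUnion Set.univ :=
  ⟨{(1, 0)}, by
    ext n
    simp only [Set.mem_univ, Set.mem_ofPred_eq, Finset.mem_singleton, exists_eq_left, true_iff]
    exact ⟨n, by ring⟩⟩

/-- Reduction to sets of dimension at most one. -/
theorem of_curve {N : ℕ} (f : Fin (N + 1) → MvPolynomial (Fin (N + 1)) ℂ)
    (a : Fin (N + 1) → ℂ) {S : Set (MvPolynomial (Fin (N + 1)) ℂ)}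
    (hS : ∀ g ∈ S, ∃ e : ℕ, g.IsHomogeneous e) (hdim : SmallDim S)
    (h : Pool.Agent.Helper38.TQ.CurveSet S → FiniteUnion (returnSet f a S)) :
    FiniteUnion (returnSet f a S) := by
  by_cases hall : ∀ g ∈ S, g = 0
  · have h1 : returnSet f a S = Set.univ := by
      ext n
      simp only [returnSet, Set.mem_ofPred_eq, Set.mem_univ, iff_true]
      intro g hg
      rw [hall g hg, map_zero]
    rw [h1]
    exact finiteUnion_univ
  · push Not at hall
    obtain ⟨g, hg, hg0⟩ := hall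
    rcases hdim with hN | hdim
    · exact h (Pool.Agent.Helper38.TQ.curveSet_of_krull hS (krullDim_le_two hN S hg hg0))
    · exact h (Pool.Agent.Helper38.TQ.curveSet_of_krull hS hdim)

/-- A map over `k` and its orbits. -/
theorem exists_lift (k : Subfield ℂ) [IsAlgClosed k] {N d : ℕ}
    (f : Fin (N + 1) → MvPolynomial (Fin (N + 1)) ℂ) (hf : Endomorphism d f)
    (hk : MapOver k f) :
    ∃ F : Fin (N + 1) → MvPolynomial (Fin (N + 1)) k, Pool.Agent.Helper38.TQ.IsEndo d F ∧
      (∀ i, map (algebraMap k ℂ) (F i) = f i) ∧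
      ∀ (a : Fin (N + 1) → ℂ) (n : ℕ), Pool.Agent.Helper36.iter F a n = orbit f a n := by
  obtain ⟨hd, hh, hnz⟩ := hf
  have hlift : ∀ i, ∃ g : MvPolynomial (Fin (N + 1)) k, map (algebraMap k ℂ) g = f i := by
    intro i
    have h1 : f i ∈ Set.range (map (σ := Fin (N + 1)) (algebraMap k ℂ)) := by
      rw [mem_range_map_iff_coeffs_subset]
      intro c hc
      obtain ⟨m, hm⟩ := mem_coeffs_iff.1 hc
      exact ⟨⟨c, by rw [hm.2]; exact hk i m⟩, rfl⟩
    exact h1
  choose F hF using hlift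
  refine ⟨F, ⟨hd, fun i => ?_, fun x hx => ?_⟩, hF, fun a n => ?_⟩
  · have := hh i
    rw [← hF i] at this
    exact this.of_map (algebraMap k ℂ).injective
  · have h1 : (fun i => algebraMap k ℂ (x i)) = 0 := by
      apply hnz
      intro i
      rw [← hF i, ← Pool.Agent.Helper38.Sym.map_eval_gen, hx i, map_zero]
    funext i
    have h2 := congrFun h1 i
    simpa using h2
  · have h1 : Pool.Agent.Helper36.step F =
        fun x : Fin (N + 1) → ℂ => fun i => eval x (f i) := by
      funext x i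
      rw [← hF i, eval_map]
      rfl
    unfold orbit
    rw [← h1]
    rfl

theorem not_isConst (k : Subfield ℂ) {N : ℕ} {a : Fin (N + 1) → ℂ} (h : ¬ DefinedOver k a) :
    ¬ Pool.Agent.Helper38.TQ.IsConst k a := by
  rintro ⟨z, c, hc, h1⟩
  apply h
  refine ⟨c⁻¹, inv_ne_zero hc, fun i => ?_⟩
  rw [h1, ← mul_assoc, inv_mul_cancel₀ hc, one_mul]
  exact (z i).2

/-- The plane, the map being defined over `k`. -/
theorem plane (k : Subfield ℂ) [IsAlgClosed k] {d : ℕ}
    (f : Fin 3 → MvPolynomial (Fin 3) ℂ) (hf : Endomorphism (N := 2) d f)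
    (hk : MapOver (N := 2) k f) (a : Fin 3 → ℂ) (ha : a ≠ 0) (hak : ¬ DefinedOver (N := 2) k a)
    (S : Set (MvPolynomial (Fin 3) ℂ)) (hS : ∀ g ∈ S, ∃ e : ℕ, g.IsHomogeneous e) :
    FiniteUnion (returnSet (N := 2) f a S) := by
  obtain ⟨F, hF, hFf, horb⟩ := exists_lift (N := 2) k f hf hk
  have hend : Pool.Agent.Helper30.TP.IsEndo d F := ⟨hF.two_le, hF.hom, hF.nz⟩
  have hac : ¬ Pool.Agent.Helper30.TP.IsConst k a := not_isConst (N := 2) k hak
  have h := Pool.Agent.Helper30.TP.final hend ha hac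
  have h2 : (fun i => map (algebraMap k ℂ) (F i)) = f := funext hFf
  rw [h2] at h
  exact h S hS

/-- Finitely many critical points in the orbit, maps over function fields. -/
theorem functionField (k : Subfield ℂ) [IsAlgClosed k] {N d : ℕ}
    (f : Fin (N + 1) → MvPolynomial (Fin (N + 1)) ℂ) (hf : Endomorphism d f)
    (a : Fin (N + 1) → ℂ) (ha : a ≠ 0) (hunb : UnboundedHeights k f a)
    (hcrit : {n | Critical f (orbit f a n)}.Finite)
    (S : Set (MvPolynomial (Fin (N + 1)) ℂ)) (hS : ∀ g ∈ S, ∃ e : ℕ, g.IsHomogeneous e)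
    (hdim : SmallDim S) : FiniteUnion (returnSet f a S) := by
  obtain ⟨t, ht, hfc, hac, hunb⟩ := hunb
  refine of_curve f a hS hdim fun hcur => ?_
  have hjac : ∀ x, eval x (Pool.Agent.Helper30.TKN.jf f) = 0 ↔ Critical f x := fun x => by
    rw [Pool.Agent.Helper30.TKN.eval_jf f x]
    rfl
  refine Pool.Agent.Helper38.TQK.curves (t := t) ?_ (isEndo hf) hfc ha hac hunb ?_ hS hcur
  · rintro ⟨c, hc⟩
    exact ht (hc ▸ c.2)
  · simp only [hjac]
    exact hcrit

/-- Finitely many critical points in the orbit, maps over the constants. -/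
theorem constants (k : Subfield ℂ) [IsAlgClosed k] {N d : ℕ}
    (f : Fin (N + 1) → MvPolynomial (Fin (N + 1)) ℂ) (hf : Endomorphism d f)
    (hk : MapOver k f) (a : Fin (N + 1) → ℂ) (ha : a ≠ 0) (hak : ¬ DefinedOver k a)
    (hcrit : {n | Critical f (orbit f a n)}.Finite)
    (S : Set (MvPolynomial (Fin (N + 1)) ℂ)) (hS : ∀ g ∈ S, ∃ e : ℕ, g.IsHomogeneous e)
    (hdim : SmallDim S) : FiniteUnion (returnSet f a S) := by
  obtain ⟨F, hF, hFf, horb⟩ := exists_lift k f hf hk
  refine of_curve f a hS hdim fun hcur => ?_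
  have hFf' : (fun i => map (algebraMap k ℂ) (F i)) = f := funext hFf
  have h := Pool.Agent.Helper38.TQK.dml_curve_crit hF ha (not_isConst k hak) ?_ hS hcur
  · simp only [horb] at h
    exact h
  · rw [hFf']
    simp only [horb, Pool.Agent.Helper30.TKN.eval_jf]
    exact hcrit

/-- No critical periodic points, maps over the constants. -/
theorem noCritical (k : Subfield ℂ) [IsAlgClosed k] {N d : ℕ}
    (f : Fin (N + 1) → MvPolynomial (Fin (N + 1)) ℂ) (hf : Endomorphism d f)
    (hk : MapOver k f)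
    (hcrit : ∀ (z : Fin (N + 1) → ℂ) (n : ℕ) (c : ℂ), z ≠ 0 → 0 < n → orbit f z n = c • z →
      ¬ Critical f z)
    (a : Fin (N + 1) → ℂ) (ha : a ≠ 0) (hak : ¬ DefinedOver k a)
    (S : Set (MvPolynomial (Fin (N + 1)) ℂ)) (hS : ∀ g ∈ S, ∃ e : ℕ, g.IsHomogeneous e)
    (hdim : SmallDim S) : FiniteUnion (returnSet f a S) := by
  obtain ⟨F, hF, hFf, horb⟩ := exists_lift k f hf hk
  refine of_curve f a hS hdim fun hcur => ?_
  have h := Pool.Agent.Helper38.TQ.dml_curve hF (a := a) (S := S) ?_ ha (not_isConst k hak) hS hcur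
  · simp only [horb] at h
    exact h
  · intro z n hz hn hper hdet
    obtain ⟨c, hc, hcz⟩ := hper
    have hzC : (fun i => algebraMap k ℂ (z i)) ≠ 0 := by
      intro h0
      apply hz
      funext i
      have := congrFun h0 i
      simpa using this
    refine hcrit (fun i => algebraMap k ℂ (z i)) n (algebraMap k ℂ c) hzC hn ?_ ?_
    · rw [← horb]
      have h1 := Pool.Agent.Helper36.iter_map F (Algebra.ofId k ℂ) z n
      have h2 : (fun i => (Algebra.ofId k ℂ) (z i)) = fun i => algebraMap k ℂ (z i) := rfl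
      rw [h2] at h1
      rw [h1, hcz]
      funext i
      change algebraMap k ℂ (c • z i) = algebraMap k ℂ c * algebraMap k ℂ (z i)
      rw [smul_eq_mul, map_mul]
    · unfold Critical
      have h1 := Pool.Agent.Helper38.TQ.pjac_map_det (k := k) (k' := ℂ) F z
      have h2 : (fun i => MvPolynomial.map (algebraMap k ℂ) (F i)) = f := funext hFf
      rw [h2] at h1
      rw [hdet, map_zero] at h1
      exact h1

/-- Three coordinates without homogeneous relation over `k`. -/
theorem threeIndependent (k : Subfield ℂ) [IsAlgClosed k] {N d : ℕ}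
    (f : Fin (N + 1) → MvPolynomial (Fin (N + 1)) ℂ) (hf : Endomorphism d f)
    (hk : MapOver k f) (a : Fin (N + 1) → ℂ) (i j l : Fin (N + 1))
    (hind : ∀ (P : MvPolynomial (Fin 3) k) (e : ℕ), P.IsHomogeneous e →
      aeval ![a i, a j, a l] P = 0 → P = 0)
    (S : Set (MvPolynomial (Fin (N + 1)) ℂ)) (hS : ∀ g ∈ S, ∃ e : ℕ, g.IsHomogeneous e)
    (hdim : SmallDim S) : FiniteUnion (returnSet f a S) := by
  obtain ⟨F, hF, hFf, horb⟩ := exists_lift k f hf hk
  refine of_curve f a hS hdim fun hcur => ?_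
  have h := Pool.Agent.Helper38.TQ.finite_return hF i j l hind (S := S) hS hcur
  simp only [horb] at h
  exact Pool.Agent.Helper38.TQ.finite_progressions h

end Pool.Agent.Helper38.TQK.Res
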