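import Pool.Agent.Helper38.TQK.Wrap
import Pool.Agent.Helper63.TF.Final

/-!
# The plane: points of unbounded height over a function field, elementary form
-/

set_option autoImplicit false

namespace Pool.Agent.Helper38.TQK

open MvPolynomial
open Pool.Agent.Helper16 (Place IsFunctionField)
open Pool.Agent.Helper36 (step iter iter_zero iter_succ iter_succ' iter_add iter_map)
open Pool.Agent.Helper38.TQ
open Pool.Agent.Helper30.TKN

/-- **The plane, elementary form.** -/
theorem plane_dml {k : Type} [Field k] [IsAlgClosed k] [Algebra k ℂ] {t : ℂ}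
    (ht : t ∉ Set.range (algebraMap k ℂ)) {d : ℕ}
    {f : Fin 3 → MvPolynomial (Fin 3) ℂ} (hf : IsEndo (ν := 2) d f)
    (hfc : ∀ i m, Alg k t ((f i).coeff m)) {a : Fin 3 → ℂ} (ha : a ≠ 0)
    (hac : ∀ i, Alg k t (a i))
    (hunb : ∀ D, ∃ n, ¬ HeightLe (ν := 2) k t D
      ((fun (x : Fin 3 → ℂ) (i : Fin 3) => eval x (f i))^[n] a)) :
    Pool.Agent.Helper38.Sym.DMLgen f a := by
  classical
  obtain ⟨K, F, x, hK, htK, hFf, hxa, hx, hF⟩ := exists_data (ν := 2) ht hf hfc ha hac
  have hFf' : (fun i => map (algebraMap K ℂ) (F i)) = f := funext hFf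
  have hxa' : (fun i => (1 : ℂ) * algebraMap K ℂ (x i)) = a := by
    funext i
    rw [one_mul, hxa]
  have horb : ∀ n, (fun (x : Fin 3 → ℂ) (i : Fin 3) => eval x (f i))^[n] a =
      fun i => algebraMap K ℂ (iter F x n i) := by
    intro n
    have h2 := orbit_complex (ν := 2) hF x 1 n
    rw [hxa', one_pow, one_smul] at h2
    rw [← h2, ← hFf']
  have hunb' : ∀ B : ℤ, ∃ n, B < Pool.Agent.Helper30.TP.ht k (iter F x n) := by
    intro B
    by_contra hcon
    push Not at hcon
    obtain ⟨D, hD⟩ := heightLe_of_ht (ν := 2) hK htK B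
    obtain ⟨n, hn⟩ := hunb D
    apply hn
    rw [horb]
    exact hD _ (hcon n)
  have hF' : Pool.Agent.Helper30.TP.IsEndo d fun i => map (algebraMap K ℂ) (F i) :=
    ⟨hF.two_le, hF.hom, hF.nz⟩
  have h := Pool.Agent.Helper63.TF.k_dml hK hF' hx hunb' 1 one_ne_zero
  rw [hxa', hFf'] at h
  exact h

end Pool.Agent.Helper38.TQK
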