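import Mathlib
import Pool.Agent.Helper30.TP.Final
import Pool.Agent.Helper38.TQK.Wrap2
import Pool.Agent.Helper38.TQK.Const
import Pool.Agent.Helper38.TQ.Final2

/-!
# MP_b15c9e_ag: points of unbounded height

Let `k` be an algebraically closed subfield of `ℂ`. A point `a` of projective space and an
endomorphism `Φ` have unbounded height over `k` if `Φ` is defined over `k` and `a` is not, or if
both are defined over a finite extension of `k(t)`, `t ∉ k`, and the heights over `k(t)` of the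
points `Φⁿ(a)` are unbounded. Such points have the Dynamical Mordell-Lang property for all closed
sets of the plane, and in all dimensions for all closed sets of dimension at most one, if the
orbit meets the critical set only finitely often. (The format is that of frozen statement
`S00381`.) Consequence: every endomorphism of the plane over `ℂ` of degree `d ≥ 2` has the
property at all but countably many points.
-/

set_option autoImplicit false

namespace Pool.Agent.Helper38.TQK.ResA

open MvPolynomial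

/-- The forms `f` of degree `d ≥ 2` have no common zero, so define an endomorphism of projective
space `P^N`. -/
def Endomorphism {N : ℕ} (d : ℕ) (f : Fin (N + 1) → MvPolynomial (Fin (N + 1)) ℂ) : Prop :=
  2 ≤ d ∧ (∀ i, (f i).IsHomogeneous d) ∧ ∀ x : Fin (N + 1) → ℂ, (∀ i, eval x (f i) = 0) → x = 0

/-- The `n`-th iterate of `a`. -/
noncomputable def orbit {N : ℕ} (f : Fin (N + 1) → MvPolynomial (Fin (N + 1)) ℂ)
    (a : Fin (N + 1) → ℂ) (n : ℕ) : Fin (N + 1) → ℂ :=
  (fun x : Fin (N + 1) → ℂ => fun i => eval x (f i))^[n] a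

/-- The return set of `a` to the common zeros of the forms in `S`. -/
def returnSet {N : ℕ} (f : Fin (N + 1) → MvPolynomial (Fin (N + 1)) ℂ) (a : Fin (N + 1) → ℂ)
    (S : Set (MvPolynomial (Fin (N + 1)) ℂ)) : Set ℕ :=
  {n : ℕ | ∀ g ∈ S, eval (orbit f a n) g = 0}

/-- A finite union of arithmetic progressions. -/
def FiniteUnion (R : Set ℕ) : Prop :=
  ∃ T : Finset (ℕ × ℕ), R = {n : ℕ | ∃ p ∈ T, ∃ m : ℕ, n = p.1 * m + p.2}

/-- The closed set defined by the forms in `S` has dimension at most one: the cone over it has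
Krull dimension at most two. -/
def DimLeOne {N : ℕ} (S : Set (MvPolynomial (Fin (N + 1)) ℂ)) : Prop :=
  ringKrullDim (MvPolynomial (Fin (N + 1)) ℂ ⧸ Ideal.span S) ≤ 2

/-- The Jacobian determinant of the forms vanishes at `x`. -/
def Critical {N : ℕ} (f : Fin (N + 1) → MvPolynomial (Fin (N + 1)) ℂ)
    (x : Fin (N + 1) → ℂ) : Prop :=
  (Matrix.of fun i j => eval x (pderiv j (f i))).det = 0

/-- The map has coefficients in `k`. -/
def MapOver {N : ℕ} (k : Subfield ℂ) (f : Fin (N + 1) → MvPolynomial (Fin (N + 1)) ℂ) : Prop :=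
  ∀ i m, (f i).coeff m ∈ k

/-- The point `a` of projective space has homogeneous coordinates in `k`. -/
def DefinedOver {N : ℕ} (k : Subfield ℂ) (a : Fin (N + 1) → ℂ) : Prop :=
  ∃ c : ℂ, c ≠ 0 ∧ ∀ i, c * a i ∈ k

/-- The number `c` is algebraic over `k(t)` (for `t ∉ k`). -/
def AlgebraicOver (k : Subfield ℂ) (t c : ℂ) : Prop :=
  ∃ P : MvPolynomial (Fin 2) k, P ≠ 0 ∧ aeval ![t, c] P = 0

/-- All quotients of coordinates of `x` satisfy with `t` relations over `k` of degree at most
`D`. -/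
def HeightLe {N : ℕ} (k : Subfield ℂ) (t : ℂ) (D : ℕ) (x : Fin (N + 1) → ℂ) : Prop :=
  ∀ i j, x j ≠ 0 → ∃ P : MvPolynomial (Fin 2) k, P ≠ 0 ∧ P.totalDegree ≤ D ∧
    aeval ![t, x i / x j] P = 0

/-- The map and the point are defined over a finite extension of `k(t)`, with `t ∉ k`, and the
heights of the points of the orbit over `k(t)` are not bounded. -/
def UnboundedHeights {N : ℕ} (k : Subfield ℂ) (f : Fin (N + 1) → MvPolynomial (Fin (N + 1)) ℂ)
    (a : Fin (N + 1) → ℂ) : Prop :=
  ∃ t : ℂ, t ∉ k ∧ (∀ i m, AlgebraicOver k t ((f i).coeff m)) ∧ (∀ i, AlgebraicOver k t (a i)) ∧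
    ∀ D : ℕ, ∃ n : ℕ, ¬ HeightLe k t D (orbit f a n)

/-- The orbit of `a` has unbounded height over `k`. -/
def UnboundedOrbit {N : ℕ} (k : Subfield ℂ) (f : Fin (N + 1) → MvPolynomial (Fin (N + 1)) ℂ)
    (a : Fin (N + 1) → ℂ) : Prop :=
  (MapOver k f ∧ ¬ DefinedOver k a) ∨ UnboundedHeights k f a

/-- No periodic point is critical. -/
def NoCriticalPeriodic {N : ℕ} (f : Fin (N + 1) → MvPolynomial (Fin (N + 1)) ℂ) : Prop :=
  ∀ (z : Fin (N + 1) → ℂ) (n : ℕ) (c : ℂ), z ≠ 0 → 0 < n → orbit f z n = c • z → ¬ Critical f z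

/-- Three coordinates of `a` satisfy no homogeneous relation over `k`. -/
def ThreeIndependent {N : ℕ} (k : Subfield ℂ) (a : Fin (N + 1) → ℂ) : Prop :=
  ∃ i j l : Fin (N + 1), ∀ (P : MvPolynomial (Fin 3) k) (e : ℕ), P.IsHomogeneous e →
    aeval ![a i, a j, a l] P = 0 → P = 0

/-- Only finitely many points of the orbit are critical, or the map is defined over `k` and has
no critical periodic points, or it is defined over `k` and three coordinates of `a` satisfy no
homogeneous relation over `k`. -/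
def Mild {N : ℕ} (k : Subfield ℂ) (f : Fin (N + 1) → MvPolynomial (Fin (N + 1)) ℂ)
    (a : Fin (N + 1) → ℂ) : Prop :=
  {n | Critical f (orbit f a n)}.Finite ∨ (MapOver k f ∧ NoCriticalPeriodic f) ∨
    (MapOver k f ∧ ThreeIndependent k a)

theorem isEndo {N : ℕ} {d : ℕ} {f : Fin (N + 1) → MvPolynomial (Fin (N + 1)) ℂ}
    (h : Endomorphism d f) : Pool.Agent.Helper38.TQ.IsEndo d f := ⟨h.1, h.2.1, h.2.2⟩

/-- Reduction to sets of dimension at most one. -/
theorem of_curve {N : ℕ} (f : Fin (N + 1) → MvPolynomial (Fin (N + 1)) ℂ)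
    (a : Fin (N + 1) → ℂ) {S : Set (MvPolynomial (Fin (N + 1)) ℂ)}
    (hS : ∀ g ∈ S, ∃ e : ℕ, g.IsHomogeneous e) (hdim : DimLeOne S)
    (h : Pool.Agent.Helper38.TQ.CurveSet S → FiniteUnion (returnSet f a S)) :
    FiniteUnion (returnSet f a S) :=
  h (Pool.Agent.Helper38.TQ.curveSet_of_krull hS hdim)

/-- A map over `k` and its orbits. -/
theorem exists_lift (k : Subfield ℂ) [IsAlgClosed k] {N d : ℕ}
    (f : Fin (N + 1) → MvPolynomial (Fin (N + 1)) ℂ) (hf : Endomorphism d f)
    (hk : MapOver k f) :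
    ∃ F : Fin (N + 1) → MvPolynomial (Fin (N + 1)) k, Pool.Agent.Helper38.TQ.IsEndo d F ∧
      (∀ i, map (algebraMap k ℂ) (F i) = f i) ∧
      ∀ (a : Fin (N + 1) → ℂ) (n : ℕ), Pool.Agent.Helper36.iter F a n = orbit f a n := by
  obtain ⟨hd, hh, hnz⟩ := hf
  have hlift : ∀ i, ∃ g : MvPolynomial (Fin (N + 1)) k, map (algebraMap k ℂ) g = f i := by
    intro i
    have h1 : f i ∈ Set.range (map (σ := Fin (N + 1)) (algebraMap k ℂ)) := by
      rw [mem_range_map_iff_coeffs_subset]
      intro c hc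
      obtain ⟨m, hm⟩ := mem_coeffs_iff.1 hc
      exact ⟨⟨c, by rw [hm.2]; exact hk i m⟩, rfl⟩
    exact h1
  choose F hF using hlift
  refine ⟨F, ⟨hd, fun i => ?_, fun x hx => ?_⟩, hF, fun a n => ?_⟩
  · have := hh i
    rw [← hF i] at this
    exact this.of_map (algebraMap k ℂ).injective
  · have h1 : (fun i => algebraMap k ℂ (x i)) = 0 := by
      apply hnz
      intro i
      rw [← hF i, ← Pool.Agent.Helper38.Sym.map_eval_gen, hx i, map_zero]
    funext i
    have h2 := congrFun h1 i
    simpa using h2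
  · have h1 : Pool.Agent.Helper36.step F =
        fun x : Fin (N + 1) → ℂ => fun i => eval x (f i) := by
      funext x i
      rw [← hF i, eval_map]
      rfl
    unfold orbit
    rw [← h1]
    rfl

theorem not_isConst (k : Subfield ℂ) {N : ℕ} {a : Fin (N + 1) → ℂ} (h : ¬ DefinedOver k a) :
    ¬ Pool.Agent.Helper38.TQ.IsConst k a := by
  rintro ⟨z, c, hc, h1⟩
  apply h
  refine ⟨c⁻¹, inv_ne_zero hc, fun i => ?_⟩
  rw [h1, ← mul_assoc, inv_mul_cancel₀ hc, one_mul]
  exact (z i).2

/-- The plane, the map being defined over `k`. -/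
theorem plane (k : Subfield ℂ) [IsAlgClosed k] {d : ℕ}
    (f : Fin 3 → MvPolynomial (Fin 3) ℂ) (hf : Endomorphism (N := 2) d f)
    (hk : MapOver (N := 2) k f) (a : Fin 3 → ℂ) (ha : a ≠ 0) (hak : ¬ DefinedOver (N := 2) k a)
    (S : Set (MvPolynomial (Fin 3) ℂ)) (hS : ∀ g ∈ S, ∃ e : ℕ, g.IsHomogeneous e) :
    FiniteUnion (returnSet (N := 2) f a S) := by
  obtain ⟨F, hF, hFf, horb⟩ := exists_lift (N := 2) k f hf hk
  have hend : Pool.Agent.Helper30.TP.IsEndo d F := ⟨hF.two_le, hF.hom, hF.nz⟩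
  have hac : ¬ Pool.Agent.Helper30.TP.IsConst k a := not_isConst (N := 2) k hak
  have h := Pool.Agent.Helper30.TP.final hend ha hac
  have h2 : (fun i => map (algebraMap k ℂ) (F i)) = f := funext hFf
  rw [h2] at h
  exact h S hS

/-- Finitely many critical points in the orbit, maps over function fields. -/
theorem functionField (k : Subfield ℂ) [IsAlgClosed k] {N d : ℕ}
    (f : Fin (N + 1) → MvPolynomial (Fin (N + 1)) ℂ) (hf : Endomorphism d f)
    (a : Fin (N + 1) → ℂ) (ha : a ≠ 0) (hunb : UnboundedHeights k f a)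
    (hcrit : {n | Critical f (orbit f a n)}.Finite)
    (S : Set (MvPolynomial (Fin (N + 1)) ℂ)) (hS : ∀ g ∈ S, ∃ e : ℕ, g.IsHomogeneous e)
    (hdim : DimLeOne S) : FiniteUnion (returnSet f a S) := by
  obtain ⟨t, ht, hfc, hac, hunb⟩ := hunb
  refine of_curve f a hS hdim fun hcur => ?_
  have hjac : ∀ x, eval x (Pool.Agent.Helper30.TKN.jf f) = 0 ↔ Critical f x := fun x => by
    rw [Pool.Agent.Helper30.TKN.eval_jf f x]
    rfl
  refine Pool.Agent.Helper38.TQK.curves (t := t) ?_ (isEndo hf) hfc ha hac hunb ?_ hS hcur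
  · rintro ⟨c, hc⟩
    exact ht (hc ▸ c.2)
  · simp only [hjac]
    exact hcrit

/-- Finitely many critical points in the orbit, maps over the constants. -/
theorem constants (k : Subfield ℂ) [IsAlgClosed k] {N d : ℕ}
    (f : Fin (N + 1) → MvPolynomial (Fin (N + 1)) ℂ) (hf : Endomorphism d f)
    (hk : MapOver k f) (a : Fin (N + 1) → ℂ) (ha : a ≠ 0) (hak : ¬ DefinedOver k a)
    (hcrit : {n | Critical f (orbit f a n)}.Finite)
    (S : Set (MvPolynomial (Fin (N + 1)) ℂ)) (hS : ∀ g ∈ S, ∃ e : ℕ, g.IsHomogeneous e)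
    (hdim : DimLeOne S) : FiniteUnion (returnSet f a S) := by
  obtain ⟨F, hF, hFf, horb⟩ := exists_lift k f hf hk
  refine of_curve f a hS hdim fun hcur => ?_
  have hFf' : (fun i => map (algebraMap k ℂ) (F i)) = f := funext hFf
  have h := Pool.Agent.Helper38.TQK.dml_curve_crit hF ha (not_isConst k hak) ?_ hS hcur
  · simp only [horb] at h
    exact h
  · rw [hFf']
    simp only [horb, Pool.Agent.Helper30.TKN.eval_jf]
    exact hcrit

/-- No critical periodic points, maps over the constants. -/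
theorem noCritical (k : Subfield ℂ) [IsAlgClosed k] {N d : ℕ}
    (f : Fin (N + 1) → MvPolynomial (Fin (N + 1)) ℂ) (hf : Endomorphism d f)
    (hk : MapOver k f)
    (hcrit : NoCriticalPeriodic f)
    (a : Fin (N + 1) → ℂ) (ha : a ≠ 0) (hak : ¬ DefinedOver k a)
    (S : Set (MvPolynomial (Fin (N + 1)) ℂ)) (hS : ∀ g ∈ S, ∃ e : ℕ, g.IsHomogeneous e)
    (hdim : DimLeOne S) : FiniteUnion (returnSet f a S) := by
  obtain ⟨F, hF, hFf, horb⟩ := exists_lift k f hf hk
  refine of_curve f a hS hdim fun hcur => ?_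
  have h := Pool.Agent.Helper38.TQ.dml_curve hF (a := a) (S := S) ?_ ha (not_isConst k hak) hS hcur
  · simp only [horb] at h
    exact h
  · intro z n hz hn hper hdet
    obtain ⟨c, hc, hcz⟩ := hper
    have hzC : (fun i => algebraMap k ℂ (z i)) ≠ 0 := by
      intro h0
      apply hz
      funext i
      have := congrFun h0 i
      simpa using this
    refine hcrit (fun i => algebraMap k ℂ (z i)) n (algebraMap k ℂ c) hzC hn ?_ ?_
    · rw [← horb]
      have h1 := Pool.Agent.Helper36.iter_map F (Algebra.ofId k ℂ) z n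
      have h2 : (fun i => (Algebra.ofId k ℂ) (z i)) = fun i => algebraMap k ℂ (z i) := rfl
      rw [h2] at h1
      rw [h1, hcz]
      funext i
      change algebraMap k ℂ (c • z i) = algebraMap k ℂ c * algebraMap k ℂ (z i)
      rw [smul_eq_mul, map_mul]
    · unfold Critical
      have h1 := Pool.Agent.Helper38.TQ.pjac_map_det (k := k) (k' := ℂ) F z
      have h2 : (fun i => MvPolynomial.map (algebraMap k ℂ) (F i)) = f := funext hFf
      rw [h2] at h1
      rw [hdet, map_zero] at h1
      exact h1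

/-- Three coordinates without homogeneous relation over `k`. -/
theorem threeIndependent (k : Subfield ℂ) [IsAlgClosed k] {N d : ℕ}
    (f : Fin (N + 1) → MvPolynomial (Fin (N + 1)) ℂ) (hf : Endomorphism d f)
    (hk : MapOver k f) (a : Fin (N + 1) → ℂ) (i j l : Fin (N + 1))
    (hind : ∀ (P : MvPolynomial (Fin 3) k) (e : ℕ), P.IsHomogeneous e →
      aeval ![a i, a j, a l] P = 0 → P = 0)
    (S : Set (MvPolynomial (Fin (N + 1)) ℂ)) (hS : ∀ g ∈ S, ∃ e : ℕ, g.IsHomogeneous e)
    (hdim : DimLeOne S) : FiniteUnion (returnSet f a S) := by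
  obtain ⟨F, hF, hFf, horb⟩ := exists_lift k f hf hk
  refine of_curve f a hS hdim fun hcur => ?_
  have h := Pool.Agent.Helper38.TQ.finite_return hF i j l hind (S := S) hS hcur
  simp only [horb] at h
  exact Pool.Agent.Helper38.TQ.finite_progressions h


/-- A map and a point defined over `k` have bounded heights. -/
theorem not_unbounded_of_const (k : Subfield ℂ) {N d : ℕ}
    (f : Fin (N + 1) → MvPolynomial (Fin (N + 1)) ℂ) (hf : Endomorphism d f)
    (hk : MapOver k f) (a : Fin (N + 1) → ℂ) (hak : DefinedOver k a) :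
    ¬ UnboundedHeights k f a := by
  rintro ⟨t, -, -, -, hunb⟩
  obtain ⟨c, hc, hca⟩ := hak
  obtain ⟨n, hn⟩ := hunb 1
  apply hn
  have hlift : ∀ i, ∃ g : MvPolynomial (Fin (N + 1)) k, map (algebraMap k ℂ) g = f i := by
    intro i
    have h1 : f i ∈ Set.range (map (σ := Fin (N + 1)) (algebraMap k ℂ)) := by
      rw [mem_range_map_iff_coeffs_subset]
      intro c hc
      obtain ⟨m, hm⟩ := mem_coeffs_iff.1 hc
      exact ⟨⟨c, by rw [hm.2]; exact hk i m⟩, rfl⟩
    exact h1
  choose F hF using hlift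
  have hF' : (fun i => map (algebraMap k ℂ) (F i)) = f := funext hF
  have hend : Pool.Agent.Helper38.TQ.IsEndo d fun i => map (algebraMap k ℂ) (F i) := by
    rw [hF']
    exact isEndo hf
  let z : Fin (N + 1) → k := fun i => ⟨c * a i, hca i⟩
  have hz : (fun i => c⁻¹ * algebraMap k ℂ (z i)) = a := by
    funext i
    change c⁻¹ * (c * a i) = a i
    rw [← mul_assoc, inv_mul_cancel₀ hc, one_mul]
  have h1 := Pool.Agent.Helper38.TQK.orbit_complex hend z c⁻¹ n
  rw [hz] at h1
  simp only [hF] at h1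
  change orbit f a n = _ at h1
  rw [h1]
  intro i j hj
  have hcd : c⁻¹ ^ d ^ n ≠ 0 := pow_ne_zero _ (inv_ne_zero hc)
  set w := Pool.Agent.Helper36.iter F z n with hw
  refine ⟨X 1 - C (w i / w j), ?_, ?_, ?_⟩
  · intro h0
    have h2 := congrArg (eval fun _ => w i / w j + 1) h0
    rw [map_sub, eval_X, eval_C, map_zero, add_sub_cancel_left] at h2
    exact one_ne_zero h2
  · refine (totalDegree_sub _ _).trans ?_
    rw [totalDegree_X, totalDegree_C]
    simp
  · rw [map_sub, aeval_X, aeval_C]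
    change _ - algebraMap k ℂ (w i / w j) = 0
    simp only [Pi.smul_apply, smul_eq_mul, Matrix.cons_val_one, Matrix.cons_val_zero]
    rw [mul_div_mul_left _ _ hcd, map_div₀, sub_self]

/-- The plane, map over a function field. -/
theorem planeFunctionField (k : Subfield ℂ) [IsAlgClosed k] {d : ℕ}
    (f : Fin 3 → MvPolynomial (Fin 3) ℂ) (hf : Endomorphism (N := 2) d f)
    (a : Fin 3 → ℂ) (ha : a ≠ 0) (hunb : UnboundedHeights (N := 2) k f a)
    (S : Set (MvPolynomial (Fin 3) ℂ)) (hS : ∀ g ∈ S, ∃ e : ℕ, g.IsHomogeneous e) :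
    FiniteUnion (returnSet (N := 2) f a S) := by
  obtain ⟨t, ht, hfc, hac, hunb⟩ := hunb
  have ht' : t ∉ Set.range (algebraMap k ℂ) := by
    rintro ⟨c, hc⟩
    exact ht (hc ▸ c.2)
  exact Pool.Agent.Helper38.TQK.plane_dml (t := t) ht' (isEndo (N := 2) hf) hfc ha hac hunb S hS

/-- The plane. -/
theorem planeAll (k : Subfield ℂ) [IsAlgClosed k] {d : ℕ}
    (f : Fin 3 → MvPolynomial (Fin 3) ℂ) (hf : Endomorphism (N := 2) d f)
    (a : Fin 3 → ℂ) (ha : a ≠ 0) (hunb : UnboundedOrbit (N := 2) k f a)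
    (S : Set (MvPolynomial (Fin 3) ℂ)) (hS : ∀ g ∈ S, ∃ e : ℕ, g.IsHomogeneous e) :
    FiniteUnion (returnSet (N := 2) f a S) := by
  rcases hunb with ⟨hk, hak⟩ | hunb
  · exact plane k f hf hk a ha hak S hS
  · exact planeFunctionField k f hf a ha hunb S hS

/-- Closed sets of dimension at most one. -/
theorem curvesAll (k : Subfield ℂ) [IsAlgClosed k] {N d : ℕ}
    (f : Fin (N + 1) → MvPolynomial (Fin (N + 1)) ℂ) (hf : Endomorphism d f)
    (a : Fin (N + 1) → ℂ) (ha : a ≠ 0) (hunb : UnboundedOrbit k f a) (hmild : Mild k f a)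
    (S : Set (MvPolynomial (Fin (N + 1)) ℂ)) (hS : ∀ g ∈ S, ∃ e : ℕ, g.IsHomogeneous e)
    (hdim : DimLeOne S) : FiniteUnion (returnSet f a S) := by
  rcases hmild with hcrit | ⟨hk, hcrit⟩ | ⟨hk, i, j, l, hind⟩
  · rcases hunb with ⟨hk, hak⟩ | hunb
    · exact constants k f hf hk a ha hak hcrit S hS hdim
    · exact functionField k f hf a ha hunb hcrit S hS hdim
  · by_cases hak : DefinedOver k a
    · rcases hunb with ⟨-, hak'⟩ | hunb
      · exact absurd hak hak'
      · exact absurd hunb (not_unbounded_of_const k f hf hk a hak)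
    · exact noCritical k f hf hk hcrit a ha hak S hS hdim
  · exact threeIndependent k f hf hk a i j l hind S hS hdim

/-- A countable algebraically closed field containing the coefficients. -/
theorem exists_countable_field {N : ℕ} (f : Fin (N + 1) → MvPolynomial (Fin (N + 1)) ℂ) :
    ∃ k : Subfield ℂ, IsAlgClosed k ∧ (k : Set ℂ).Countable ∧ MapOver k f := by
  classical
  set s : Set ℂ := ⋃ i, ((f i).coeffs : Set ℂ) with hs
  have hsc : s.Countable := Set.countable_iUnion fun i => (f i).coeffs.countable_toSet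
  set K₀ : Subfield ℂ := Subfield.closure s with hK₀
  have hK₀c : Cardinal.mk K₀ ≤ Cardinal.aleph0 := by
    refine (Subfield.cardinalMk_closure_le_max s).trans ?_
    rw [max_le_iff]
    exact ⟨Cardinal.mk_le_aleph0_iff.2 hsc.to_subtype, le_rfl⟩
  set k' : IntermediateField K₀ ℂ := algebraicClosure K₀ ℂ with hk'
  have hk'c : Cardinal.mk k' ≤ Cardinal.aleph0 := by
    refine (Algebra.IsAlgebraic.cardinalMk_le_max K₀ k').trans ?_
    rw [max_le_iff]
    exact ⟨hK₀c, le_rfl⟩
  have hac : IsAlgClosed k' := (algebraicClosure.isAlgClosure K₀ ℂ).isAlgClosed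
  refine ⟨k'.toSubfield, hac, ?_, ?_⟩
  · exact Set.countable_coe_iff.1 (Cardinal.mk_le_aleph0_iff.1 hk'c)
  · intro i m
    by_cases h0 : (f i).coeff m = 0
    · rw [h0]
      exact k'.toSubfield.zero_mem
    · have h1 : (f i).coeff m ∈ K₀ := by
        apply Subfield.subset_closure
        rw [hs, Set.mem_iUnion]
        exact ⟨i, coeff_mem_coeffs m h0⟩
      exact k'.algebraMap_mem ⟨_, h1⟩

/-- **Theorem.** Let `k` be an algebraically closed subfield of `ℂ`, let `f` give an endomorphism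
of degree `d ≥ 2` of `P^N` over `ℂ`, and let `a` be a point whose orbit has unbounded height over
`k`. Then the return set of `a` to a closed set `V` is a finite union of arithmetic progressions
if `N = 2`, or if `V` has dimension at most one and `Mild k f a` holds.
In particular every endomorphism of degree `d ≥ 2` of the plane has the Dynamical Mordell-Lang
property at all but countably many points. -/
theorem result :
    (∀ (k : Subfield ℂ) (N d : ℕ) (f : Fin (N + 1) → MvPolynomial (Fin (N + 1)) ℂ)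
      (a : Fin (N + 1) → ℂ), IsAlgClosed k → Endomorphism d f → a ≠ 0 → UnboundedOrbit k f a →
      ∀ S : Set (MvPolynomial (Fin (N + 1)) ℂ), (∀ g ∈ S, ∃ e : ℕ, g.IsHomogeneous e) →
        N = 2 ∨ (DimLeOne S ∧ Mild k f a) → FiniteUnion (returnSet f a S)) ∧
    (∀ (d : ℕ) (f : Fin 3 → MvPolynomial (Fin 3) ℂ), Endomorphism (N := 2) d f →
      ∃ Z : Set (Fin 3 → ℂ), Z.Countable ∧
        ∀ a : Fin 3 → ℂ, a ≠ 0 → (∀ z ∈ Z, ∀ c : ℂ, a ≠ c • z) →
          ∀ S : Set (MvPolynomial (Fin 3) ℂ), (∀ g ∈ S, ∃ e : ℕ, g.IsHomogeneous e) →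
            FiniteUnion (returnSet (N := 2) f a S)) := by
  refine ⟨fun k N d f a hk hf ha hunb S hS h => ?_, fun d f hf => ?_⟩
  · rcases h with rfl | ⟨hdim, hmild⟩
    · exact planeAll k f hf a ha hunb S hS
    · exact curvesAll k f hf a ha hunb hmild S hS hdim
  · obtain ⟨k, hk, hkc, hcoef⟩ := exists_countable_field (N := 2) f
    refine ⟨{z | ∀ i, z i ∈ k}, ?_, fun a ha0 ha S hS => ?_⟩
    · have h1 : {z : Fin 3 → ℂ | ∀ i, z i ∈ k} = Set.univ.pi fun _ => (k : Set ℂ) := by
        ext z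
        simp
      rw [h1]
      exact Set.countable_univ_pi fun _ => hkc
    · refine planeAll k f hf a ha0 (Or.inl ⟨hcoef, ?_⟩) S hS
      rintro ⟨c, hc, h⟩
      refine ha (c • a) (fun i => h i) c⁻¹ ?_
      rw [smul_smul, inv_mul_cancel₀ hc, one_smul]

end Pool.Agent.Helper38.TQK.ResA
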