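import Mathlib
import Pool.Agent.Helper30.TP.Final
import Pool.Agent.Helper30.RED.Plane
import Pool.Agent.Helper38.TQK.Wrap2
import Pool.Agent.Helper38.TQK.Const
import Pool.Agent.Helper38.TQ.Final2
import Pool.Agent.Helper38.PC.AP

/-!
# MP_b15c9e_ag: points of unbounded height

Let `k` be an algebraically closed subfield of `ℂ`. A point `a` of projective space and an
endomorphism `Φ` have unbounded height over `k` if `Φ` is defined over `k` and `a` is not, or if
both are defined over a finite extension of `k(t)`, `t ∉ k`, and the heights over `k(t)` of the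
points `Φⁿ(a)` are unbounded. Such points have the Dynamical Mordell-Lang property for all closed
sets of the plane, and in all dimensions for all closed sets of dimension at most one, if the
orbit meets the critical set only finitely often. (The format is that of frozen statement
`S00381`.) Consequence: every return set of the plane over `ℂ` is the intersection of a finite
union of progressions and of finitely many return sets over the algebraic numbers.
-/

set_option autoImplicit false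

namespace Pool.Agent.Helper38.TQK.ResB

open MvPolynomial

/-- The forms `f` of degree `d ≥ 2` have no common zero, so define an endomorphism of projective
space `P^N`. -/
def Endomorphism {N : ℕ} (d : ℕ) (f : Fin (N + 1) → MvPolynomial (Fin (N + 1)) ℂ) : Prop :=
  2 ≤ d ∧ (∀ i, (f i).IsHomogeneous d) ∧ ∀ x : Fin (N + 1) → ℂ, (∀ i, eval x (f i) = 0) → x = 0

/-- The `n`-th iterate of `a`. -/
noncomputable def orbit {N : ℕ} (f : Fin (N + 1) → MvPolynomial (Fin (N + 1)) ℂ)
    (a : Fin (N + 1) → ℂ) (n : ℕ) : Fin (N + 1) → ℂ :=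
  (fun x : Fin (N + 1) → ℂ => fun i => eval x (f i))^[n] a

/-- The return set of `a` to the common zeros of the forms in `S`. -/
def returnSet {N : ℕ} (f : Fin (N + 1) → MvPolynomial (Fin (N + 1)) ℂ) (a : Fin (N + 1) → ℂ)
    (S : Set (MvPolynomial (Fin (N + 1)) ℂ)) : Set ℕ :=
  {n : ℕ | ∀ g ∈ S, eval (orbit f a n) g = 0}

/-- A finite union of arithmetic progressions. -/
def FiniteUnion (R : Set ℕ) : Prop :=
  ∃ T : Finset (ℕ × ℕ), R = {n : ℕ | ∃ p ∈ T, ∃ m : ℕ, n = p.1 * m + p.2}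

/-- The Jacobian determinant of the forms vanishes at `x`. -/
def Critical {N : ℕ} (f : Fin (N + 1) → MvPolynomial (Fin (N + 1)) ℂ)
    (x : Fin (N + 1) → ℂ) : Prop :=
  (Matrix.of fun i j => eval x (pderiv j (f i))).det = 0

/-- The point `a` of projective space has homogeneous coordinates in `k`. -/
def DefinedOver {N : ℕ} (k : Subfield ℂ) (a : Fin (N + 1) → ℂ) : Prop :=
  ∃ c : ℂ, c ≠ 0 ∧ ∀ i, c * a i ∈ k

/-- The numbers `t` and `c` satisfy a relation over `k` of degree at most `D`. -/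
def Rel (k : Subfield ℂ) (t : ℂ) (D : ℕ) (c : ℂ) : Prop :=
  ∃ P : MvPolynomial (Fin 2) k, P ≠ 0 ∧ P.totalDegree ≤ D ∧ aeval ![t, c] P = 0

/-- The points `Φⁿ(a)` have unbounded height over `k`: the map is defined over `k` and the point
is not, or they are defined over a finite extension of `k(t)`, where `t ∉ k`, and the heights over
`k(t)` of the points `Φⁿ(a)` are not bounded. -/
def Unbounded {N : ℕ} (k : Subfield ℂ) (f : Fin (N + 1) → MvPolynomial (Fin (N + 1)) ℂ)
    (a : Fin (N + 1) → ℂ) : Prop :=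
  ((∀ i m, (f i).coeff m ∈ k) ∧ ¬ DefinedOver k a) ∨
    ∃ t : ℂ, t ∉ k ∧ (∀ i m, ∃ D, Rel k t D ((f i).coeff m)) ∧ (∀ i, ∃ D, Rel k t D (a i)) ∧
      ∀ D : ℕ, ∃ (n : ℕ) (i j : Fin (N + 1)), orbit f a n j ≠ 0 ∧
        ¬ Rel k t D (orbit f a n i / orbit f a n j)

/-- Only finitely many of the points `Φⁿ(a)` are critical, or the map is defined over `k` and no
periodic point is critical. -/
def Mild {N : ℕ} (k : Subfield ℂ) (f : Fin (N + 1) → MvPolynomial (Fin (N + 1)) ℂ)
    (a : Fin (N + 1) → ℂ) : Prop :=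
  {n | Critical f (orbit f a n)}.Finite ∨ ((∀ i m, (f i).coeff m ∈ k) ∧
    ∀ (z : Fin (N + 1) → ℂ) (n : ℕ) (c : ℂ), z ≠ 0 → 0 < n → orbit f z n = c • z →
      ¬ Critical f z)

theorem isEndo {N : ℕ} {d : ℕ} {f : Fin (N + 1) → MvPolynomial (Fin (N + 1)) ℂ}
    (h : Endomorphism d f) : Pool.Agent.Helper38.TQ.IsEndo d f := ⟨h.1, h.2.1, h.2.2⟩

/-- Reduction to sets of dimension at most one. -/
theorem of_curve {N : ℕ} (f : Fin (N + 1) → MvPolynomial (Fin (N + 1)) ℂ)
    (a : Fin (N + 1) → ℂ) {S : Set (MvPolynomial (Fin (N + 1)) ℂ)}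
    (hS : ∀ g ∈ S, ∃ e : ℕ, g.IsHomogeneous e)
    (hdim : ringKrullDim (MvPolynomial (Fin (N + 1)) ℂ ⧸ Ideal.span S) ≤ 2)
    (h : Pool.Agent.Helper38.TQ.CurveSet S → FiniteUnion (returnSet f a S)) :
    FiniteUnion (returnSet f a S) :=
  h (Pool.Agent.Helper38.TQ.curveSet_of_krull hS hdim)

/-- A map over `k` and its orbits. -/
theorem exists_lift (k : Subfield ℂ) [IsAlgClosed k] {N d : ℕ}
    (f : Fin (N + 1) → MvPolynomial (Fin (N + 1)) ℂ) (hf : Endomorphism d f)
    (hk : (∀ i m, (f i).coeff m ∈ k)) :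
    ∃ F : Fin (N + 1) → MvPolynomial (Fin (N + 1)) k, Pool.Agent.Helper38.TQ.IsEndo d F ∧
      (∀ i, map (algebraMap k ℂ) (F i) = f i) ∧
      ∀ (a : Fin (N + 1) → ℂ) (n : ℕ), Pool.Agent.Helper36.iter F a n = orbit f a n := by
  obtain ⟨hd, hh, hnz⟩ := hf
  have hlift : ∀ i, ∃ g : MvPolynomial (Fin (N + 1)) k, map (algebraMap k ℂ) g = f i := by
    intro i
    have h1 : f i ∈ Set.range (map (σ := Fin (N + 1)) (algebraMap k ℂ)) := by
      rw [mem_range_map_iff_coeffs_subset]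
      intro c hc
      obtain ⟨m, hm⟩ := mem_coeffs_iff.1 hc
      exact ⟨⟨c, by rw [hm.2]; exact hk i m⟩, rfl⟩
    exact h1
  choose F hF using hlift
  refine ⟨F, ⟨hd, fun i => ?_, fun x hx => ?_⟩, hF, fun a n => ?_⟩
  · have := hh i
    rw [← hF i] at this
    exact this.of_map (algebraMap k ℂ).injective
  · have h1 : (fun i => algebraMap k ℂ (x i)) = 0 := by
      apply hnz
      intro i
      rw [← hF i, ← Pool.Agent.Helper38.Sym.map_eval_gen, hx i, map_zero]
    funext i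
    have h2 := congrFun h1 i
    simpa using h2
  · have h1 : Pool.Agent.Helper36.step F =
        fun x : Fin (N + 1) → ℂ => fun i => eval x (f i) := by
      funext x i
      rw [← hF i, eval_map]
      rfl
    unfold orbit
    rw [← h1]
    rfl

theorem not_isConst (k : Subfield ℂ) {N : ℕ} {a : Fin (N + 1) → ℂ} (h : ¬ DefinedOver k a) :
    ¬ Pool.Agent.Helper38.TQ.IsConst k a := by
  rintro ⟨z, c, hc, h1⟩
  apply h
  refine ⟨c⁻¹, inv_ne_zero hc, fun i => ?_⟩
  rw [h1, ← mul_assoc, inv_mul_cancel₀ hc, one_mul]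
  exact (z i).2

/-- The plane, the map being defined over `k`. -/
theorem plane (k : Subfield ℂ) [IsAlgClosed k] {d : ℕ}
    (f : Fin 3 → MvPolynomial (Fin 3) ℂ) (hf : Endomorphism (N := 2) d f)
    (hk : (∀ i m, (f i).coeff m ∈ k)) (a : Fin 3 → ℂ) (ha : a ≠ 0) (hak : ¬ DefinedOver (N := 2) k a)
    (S : Set (MvPolynomial (Fin 3) ℂ)) (hS : ∀ g ∈ S, ∃ e : ℕ, g.IsHomogeneous e) :
    FiniteUnion (returnSet (N := 2) f a S) := by
  obtain ⟨F, hF, hFf, horb⟩ := exists_lift (N := 2) k f hf hk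
  have hend : Pool.Agent.Helper30.TP.IsEndo d F := ⟨hF.two_le, hF.hom, hF.nz⟩
  have hac : ¬ Pool.Agent.Helper30.TP.IsConst k a := not_isConst (N := 2) k hak
  have h := Pool.Agent.Helper30.TP.final hend ha hac
  have h2 : (fun i => map (algebraMap k ℂ) (F i)) = f := funext hFf
  rw [h2] at h
  exact h S hS

theorem alg_of_rel {k : Subfield ℂ} {t c : ℂ} (h : ∃ D, Rel k t D c) :
    Pool.Agent.Helper38.TQK.Alg k t c := by
  obtain ⟨D, P, hP0, -, hP⟩ := h
  exact ⟨P, hP0, hP⟩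

theorem not_heightLe {k : Subfield ℂ} {t : ℂ} {N : ℕ}
    {f : Fin (N + 1) → MvPolynomial (Fin (N + 1)) ℂ} {a : Fin (N + 1) → ℂ} {D : ℕ}
    (h : ∃ (n : ℕ) (i j : Fin (N + 1)), orbit f a n j ≠ 0 ∧
      ¬ Rel k t D (orbit f a n i / orbit f a n j)) :
    ∃ n, ¬ Pool.Agent.Helper38.TQK.HeightLe k t D
      ((fun (x : Fin (N + 1) → ℂ) (i : Fin (N + 1)) => eval x (f i))^[n] a) := by
  obtain ⟨n, i, j, hj, hn⟩ := h
  exact ⟨n, fun hle => hn (hle i j hj)⟩

/-- Finitely many critical points in the orbit, maps over function fields. -/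
theorem functionField (k : Subfield ℂ) [IsAlgClosed k] {N d : ℕ}
    (f : Fin (N + 1) → MvPolynomial (Fin (N + 1)) ℂ) (hf : Endomorphism d f)
    (a : Fin (N + 1) → ℂ) (ha : a ≠ 0) {t : ℂ} (ht : t ∉ k)
    (hfc : ∀ i m, ∃ D, Rel k t D ((f i).coeff m)) (hac : ∀ i, ∃ D, Rel k t D (a i))
    (hunb : ∀ D : ℕ, ∃ (n : ℕ) (i j : Fin (N + 1)), orbit f a n j ≠ 0 ∧
        ¬ Rel k t D (orbit f a n i / orbit f a n j))
    (hcrit : {n | Critical f (orbit f a n)}.Finite)
    (S : Set (MvPolynomial (Fin (N + 1)) ℂ)) (hS : ∀ g ∈ S, ∃ e : ℕ, g.IsHomogeneous e)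
    (hdim : ringKrullDim (MvPolynomial (Fin (N + 1)) ℂ ⧸ Ideal.span S) ≤ 2) :
    FiniteUnion (returnSet f a S) := by
  refine of_curve f a hS hdim fun hcur => ?_
  have hjac : ∀ x, eval x (Pool.Agent.Helper30.TKN.jf f) = 0 ↔ Critical f x := fun x => by
    rw [Pool.Agent.Helper30.TKN.eval_jf f x]
    rfl
  refine Pool.Agent.Helper38.TQK.curves (t := t) ?_ (isEndo hf)
    (fun i m => alg_of_rel (hfc i m)) ha (fun i => alg_of_rel (hac i)) ?_ ?_ hS hcur
  · rintro ⟨c, hc⟩
    exact ht (hc ▸ c.2)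
  · exact fun D => not_heightLe (hunb D)
  · simp only [hjac]
    exact hcrit

/-- Finitely many critical points in the orbit, maps over the constants. -/
theorem constants (k : Subfield ℂ) [IsAlgClosed k] {N d : ℕ}
    (f : Fin (N + 1) → MvPolynomial (Fin (N + 1)) ℂ) (hf : Endomorphism d f)
    (hk : (∀ i m, (f i).coeff m ∈ k)) (a : Fin (N + 1) → ℂ) (ha : a ≠ 0) (hak : ¬ DefinedOver k a)
    (hcrit : {n | Critical f (orbit f a n)}.Finite)
    (S : Set (MvPolynomial (Fin (N + 1)) ℂ)) (hS : ∀ g ∈ S, ∃ e : ℕ, g.IsHomogeneous e)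
    (hdim : ringKrullDim (MvPolynomial (Fin (N + 1)) ℂ ⧸ Ideal.span S) ≤ 2) :
    FiniteUnion (returnSet f a S) := by
  obtain ⟨F, hF, hFf, horb⟩ := exists_lift k f hf hk
  refine of_curve f a hS hdim fun hcur => ?_
  have hFf' : (fun i => map (algebraMap k ℂ) (F i)) = f := funext hFf
  have h := Pool.Agent.Helper38.TQK.dml_curve_crit hF ha (not_isConst k hak) ?_ hS hcur
  · simp only [horb] at h
    exact h
  · rw [hFf']
    simp only [horb, Pool.Agent.Helper30.TKN.eval_jf]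
    exact hcrit

/-- No critical periodic points, maps over the constants. -/
theorem noCritical (k : Subfield ℂ) [IsAlgClosed k] {N d : ℕ}
    (f : Fin (N + 1) → MvPolynomial (Fin (N + 1)) ℂ) (hf : Endomorphism d f)
    (hk : (∀ i m, (f i).coeff m ∈ k))
    (hcrit : (∀ (z : Fin (N + 1) → ℂ) (n : ℕ) (c : ℂ), z ≠ 0 → 0 < n →
      orbit f z n = c • z → ¬ Critical f z))
    (a : Fin (N + 1) → ℂ) (ha : a ≠ 0) (hak : ¬ DefinedOver k a)
    (S : Set (MvPolynomial (Fin (N + 1)) ℂ)) (hS : ∀ g ∈ S, ∃ e : ℕ, g.IsHomogeneous e)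
    (hdim : ringKrullDim (MvPolynomial (Fin (N + 1)) ℂ ⧸ Ideal.span S) ≤ 2) :
    FiniteUnion (returnSet f a S) := by
  obtain ⟨F, hF, hFf, horb⟩ := exists_lift k f hf hk
  refine of_curve f a hS hdim fun hcur => ?_
  have h := Pool.Agent.Helper38.TQ.dml_curve hF (a := a) (S := S) ?_ ha (not_isConst k hak) hS hcur
  · simp only [horb] at h
    exact h
  · intro z n hz hn hper hdet
    obtain ⟨c, hc, hcz⟩ := hper
    have hzC : (fun i => algebraMap k ℂ (z i)) ≠ 0 := by
      intro h0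
      apply hz
      funext i
      have := congrFun h0 i
      simpa using this
    refine hcrit (fun i => algebraMap k ℂ (z i)) n (algebraMap k ℂ c) hzC hn ?_ ?_
    · rw [← horb]
      have h1 := Pool.Agent.Helper36.iter_map F (Algebra.ofId k ℂ) z n
      have h2 : (fun i => (Algebra.ofId k ℂ) (z i)) = fun i => algebraMap k ℂ (z i) := rfl
      rw [h2] at h1
      rw [h1, hcz]
      funext i
      change algebraMap k ℂ (c • z i) = algebraMap k ℂ c * algebraMap k ℂ (z i)
      rw [smul_eq_mul, map_mul]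
    · unfold Critical
      have h1 := Pool.Agent.Helper38.TQ.pjac_map_det (k := k) (k' := ℂ) F z
      have h2 : (fun i => MvPolynomial.map (algebraMap k ℂ) (F i)) = f := funext hFf
      rw [h2] at h1
      rw [hdet, map_zero] at h1
      exact h1

/-- A map and a point defined over `k` have bounded heights. -/
theorem rel_of_const (k : Subfield ℂ) {N d : ℕ}
    (f : Fin (N + 1) → MvPolynomial (Fin (N + 1)) ℂ) (hf : Endomorphism d f)
    (hk : ∀ i m, (f i).coeff m ∈ k) (a : Fin (N + 1) → ℂ) (hak : DefinedOver k a) (t : ℂ)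
    (n : ℕ) (i j : Fin (N + 1)) : Rel k t 1 (orbit f a n i / orbit f a n j) := by
  obtain ⟨c, hc, hca⟩ := hak
  have hlift : ∀ i, ∃ g : MvPolynomial (Fin (N + 1)) k, map (algebraMap k ℂ) g = f i := by
    intro i
    have h1 : f i ∈ Set.range (map (σ := Fin (N + 1)) (algebraMap k ℂ)) := by
      rw [mem_range_map_iff_coeffs_subset]
      intro c hc
      obtain ⟨m, hm⟩ := mem_coeffs_iff.1 hc
      exact ⟨⟨c, by rw [hm.2]; exact hk i m⟩, rfl⟩
    exact h1
  choose F hF using hlift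
  have hF' : (fun i => map (algebraMap k ℂ) (F i)) = f := funext hF
  have hend : Pool.Agent.Helper38.TQ.IsEndo d fun i => map (algebraMap k ℂ) (F i) := by
    rw [hF']
    exact isEndo hf
  let z : Fin (N + 1) → k := fun i => ⟨c * a i, hca i⟩
  have hz : (fun i => c⁻¹ * algebraMap k ℂ (z i)) = a := by
    funext i
    change c⁻¹ * (c * a i) = a i
    rw [← mul_assoc, inv_mul_cancel₀ hc, one_mul]
  have h1 := Pool.Agent.Helper38.TQK.orbit_complex hend z c⁻¹ n
  rw [hz] at h1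
  simp only [hF] at h1
  change orbit f a n = _ at h1
  rw [h1]
  have hcd : c⁻¹ ^ d ^ n ≠ 0 := pow_ne_zero _ (inv_ne_zero hc)
  set w := Pool.Agent.Helper36.iter F z n with hw
  refine ⟨X 1 - C (w i / w j), ?_, ?_, ?_⟩
  · intro h0
    have h2 := congrArg (eval fun _ => w i / w j + 1) h0
    rw [map_sub, eval_X, eval_C, map_zero, add_sub_cancel_left] at h2
    exact one_ne_zero h2
  · refine (totalDegree_sub _ _).trans ?_
    rw [totalDegree_X, totalDegree_C]
    simp
  · rw [map_sub, aeval_X, aeval_C]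
    change _ - algebraMap k ℂ (w i / w j) = 0
    simp only [Pi.smul_apply, smul_eq_mul, Matrix.cons_val_one, Matrix.cons_val_zero]
    rw [mul_div_mul_left _ _ hcd, map_div₀, sub_self]

/-- The plane, map over a function field. -/
theorem planeFunctionField (k : Subfield ℂ) [IsAlgClosed k] {d : ℕ}
    (f : Fin 3 → MvPolynomial (Fin 3) ℂ) (hf : Endomorphism (N := 2) d f)
    (a : Fin 3 → ℂ) (ha : a ≠ 0) {t : ℂ} (ht : t ∉ k)
    (hfc : ∀ i m, ∃ D, Rel k t D ((f i).coeff m)) (hac : ∀ i, ∃ D, Rel k t D (a i))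
    (hunb : ∀ D : ℕ, ∃ (n : ℕ) (i j : Fin 3), orbit (N := 2) f a n j ≠ 0 ∧
        ¬ Rel k t D (orbit (N := 2) f a n i / orbit (N := 2) f a n j))
    (S : Set (MvPolynomial (Fin 3) ℂ)) (hS : ∀ g ∈ S, ∃ e : ℕ, g.IsHomogeneous e) :
    FiniteUnion (returnSet (N := 2) f a S) := by
  have ht' : t ∉ Set.range (algebraMap k ℂ) := by
    rintro ⟨c, hc⟩
    exact ht (hc ▸ c.2)
  exact Pool.Agent.Helper38.TQK.plane_dml (t := t) ht' (isEndo (N := 2) hf)
    (fun i m => alg_of_rel (hfc i m)) ha (fun i => alg_of_rel (hac i))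
    (fun D => not_heightLe (N := 2) (hunb D)) S hS

/-- The plane. -/
theorem planeAll (k : Subfield ℂ) [IsAlgClosed k] {d : ℕ}
    (f : Fin 3 → MvPolynomial (Fin 3) ℂ) (hf : Endomorphism (N := 2) d f)
    (a : Fin 3 → ℂ) (ha : a ≠ 0) (hunb : Unbounded (N := 2) k f a)
    (S : Set (MvPolynomial (Fin 3) ℂ)) (hS : ∀ g ∈ S, ∃ e : ℕ, g.IsHomogeneous e) :
    FiniteUnion (returnSet (N := 2) f a S) := by
  rcases hunb with ⟨hk, hak⟩ | ⟨t, ht, hfc, hac, hunb⟩
  · exact plane k f hf hk a ha hak S hS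
  · exact planeFunctionField k f hf a ha ht hfc hac hunb S hS

/-- Closed sets of dimension at most one. -/
theorem curvesAll (k : Subfield ℂ) [IsAlgClosed k] {N d : ℕ}
    (f : Fin (N + 1) → MvPolynomial (Fin (N + 1)) ℂ) (hf : Endomorphism d f)
    (a : Fin (N + 1) → ℂ) (ha : a ≠ 0) (hunb : Unbounded k f a) (hmild : Mild k f a)
    (S : Set (MvPolynomial (Fin (N + 1)) ℂ)) (hS : ∀ g ∈ S, ∃ e : ℕ, g.IsHomogeneous e)
    (hdim : ringKrullDim (MvPolynomial (Fin (N + 1)) ℂ ⧸ Ideal.span S) ≤ 2) :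
    FiniteUnion (returnSet f a S) := by
  rcases hmild with hcrit | ⟨hk, hcrit⟩
  · rcases hunb with ⟨hk, hak⟩ | ⟨t, ht, hfc, hac, hunb⟩
    · exact constants k f hf hk a ha hak hcrit S hS hdim
    · exact functionField k f hf a ha ht hfc hac hunb hcrit S hS hdim
  · by_cases hak : DefinedOver k a
    · rcases hunb with ⟨-, hak'⟩ | ⟨t, -, -, -, hunb⟩
      · exact absurd hak hak'
      · obtain ⟨n, i, j, -, hn⟩ := hunb 1
        exact absurd (rel_of_const k f hf hk a hak t n i j) hn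
    · exact noCritical k f hf hk hcrit a ha hak S hS hdim

/-- A countable algebraically closed field containing the coefficients. -/
theorem exists_countable_field {N : ℕ} (f : Fin (N + 1) → MvPolynomial (Fin (N + 1)) ℂ) :
    ∃ k : Subfield ℂ, IsAlgClosed k ∧ (k : Set ℂ).Countable ∧ (∀ i m, (f i).coeff m ∈ k) := by
  classical
  set s : Set ℂ := ⋃ i, ((f i).coeffs : Set ℂ) with hs
  have hsc : s.Countable := Set.countable_iUnion fun i => (f i).coeffs.countable_toSet
  set K₀ : Subfield ℂ := Subfield.closure s with hK₀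
  have hK₀c : Cardinal.mk K₀ ≤ Cardinal.aleph0 := by
    refine (Subfield.cardinalMk_closure_le_max s).trans ?_
    rw [max_le_iff]
    exact ⟨Cardinal.mk_le_aleph0_iff.2 hsc.to_subtype, le_rfl⟩
  set k' : IntermediateField K₀ ℂ := algebraicClosure K₀ ℂ with hk'
  have hk'c : Cardinal.mk k' ≤ Cardinal.aleph0 := by
    refine (Algebra.IsAlgebraic.cardinalMk_le_max K₀ k').trans ?_
    rw [max_le_iff]
    exact ⟨hK₀c, le_rfl⟩
  have hac : IsAlgClosed k' := (algebraicClosure.isAlgClosure K₀ ℂ).isAlgClosed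
  refine ⟨k'.toSubfield, hac, ?_, ?_⟩
  · exact Set.countable_coe_iff.1 (Cardinal.mk_le_aleph0_iff.1 hk'c)
  · intro i m
    by_cases h0 : (f i).coeff m = 0
    · rw [h0]
      exact k'.toSubfield.zero_mem
    · have h1 : (f i).coeff m ∈ K₀ := by
        apply Subfield.subset_closure
        rw [hs, Set.mem_iUnion]
        exact ⟨i, coeff_mem_coeffs m h0⟩
      exact k'.algebraMap_mem ⟨_, h1⟩

/-- Reduction to the algebraic numbers. -/
theorem reduction (d : ℕ) (f : Fin 3 → MvPolynomial (Fin 3) ℂ) (hf : Endomorphism (N := 2) d f)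
    (a : Fin 3 → ℂ) (ha : a ≠ 0) (S : Set (MvPolynomial (Fin 3) ℂ))
    (hS : ∀ g ∈ S, ∃ e : ℕ, g.IsHomogeneous e) :
    ∃ (R : Set ℕ) (r : ℕ) (φ : Fin r → Fin 3 → MvPolynomial (Fin 3) ℂ)
      (z : Fin r → Fin 3 → ℂ) (γ : Fin r → MvPolynomial (Fin 3) ℂ), FiniteUnion R ∧
      (∀ s, Endomorphism (N := 2) d (φ s) ∧ z s ≠ 0 ∧ (∃ e : ℕ, (γ s).IsHomogeneous e) ∧
        (∀ i m, IsAlgebraic ℚ ((φ s i).coeff m)) ∧ (∀ i, IsAlgebraic ℚ (z s i)) ∧
        ∀ m, IsAlgebraic ℚ ((γ s).coeff m)) ∧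
      returnSet (N := 2) f a S = R ∩ ⋂ s, returnSet (N := 2) (φ s) (z s) {γ s} := by
  obtain ⟨A, r, φ, z, γ, h1, h2⟩ := Pool.Agent.Helper30.RED.redSet_all
    (isEndo (N := 2) hf) ha hS
  refine ⟨Pool.Agent.Helper36.APSet A, r, φ, z, γ, ⟨A, rfl⟩, fun s => ?_, ?_⟩
  · have h3 := h1 s
    exact ⟨⟨h3.endo.two_le, h3.endo.hom, h3.endo.nz⟩, h3.ne, h3.hom, h3.algf, h3.algz, h3.algg⟩
  · have h3 : returnSet (N := 2) f a S =
        {n | ∀ g ∈ S, eval (Pool.Agent.Helper36.iter f a n) g = 0} := rfl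
    rw [h3, h2]
    congr 1
    ext n
    simp only [Set.mem_ofPred_eq, Set.mem_iInter, returnSet, Set.mem_singleton_iff, forall_eq]
    rfl

/-- The set is the intersection of finitely many finite unions of progressions. -/
theorem finiteUnion_iInter {r : ℕ} {T : Fin r → Set ℕ} (hT : ∀ s, FiniteUnion (T s))
    {R : Set ℕ} (hR : FiniteUnion R) : FiniteUnion (R ∩ ⋂ s, T s) := by
  induction r with
  | zero =>
    rw [Set.iInter_of_empty, Set.inter_univ]
    exact hR
  | succ r ih =>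
    have h1 : R ∩ ⋂ s, T s = (R ∩ ⋂ s : Fin r, T s.castSucc) ∩ T (Fin.last r) := by
      ext n
      simp only [Set.mem_inter_iff, Set.mem_iInter]
      constructor
      · rintro ⟨h2, h3⟩
        exact ⟨⟨h2, fun s => h3 s.castSucc⟩, h3 (Fin.last r)⟩
      · rintro ⟨⟨h2, h3⟩, h4⟩
        refine ⟨h2, fun s => ?_⟩
        induction s using Fin.lastCases with
        | last => exact h4
        | cast s => exact h3 s
    rw [h1]
    exact Pool.Agent.Helper38.PC.FU.inter (ih fun s => hT s.castSucc) (hT (Fin.last r))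

/-- **Theorem.** (A) Let `k` be an algebraically closed subfield of `ℂ`, let `f` give an
endomorphism of degree `d ≥ 2` of `P^N` over `ℂ`, and let `a` be a point such that the points of
the orbit have unbounded height over `k`. Then the return set of `a` to a closed set `V` is a
finite union of arithmetic progressions if `N = 2`, or if `V` has dimension at most one and
`Mild k f a` holds.
(B) Every endomorphism of degree `d ≥ 2` of the plane over `ℂ` has the Dynamical Mordell-Lang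
property at all but countably many points.
(C) Every return set of an endomorphism of degree `d ≥ 2` of the plane over `ℂ` is the
intersection of a finite union of arithmetic progressions and of finitely many return sets of
endomorphisms of degree `d` of the plane over the algebraic numbers. So the Dynamical Mordell-Lang
property of the endomorphisms of degree `d` of the plane over the algebraic numbers implies the
one over `ℂ`. -/
theorem result :
    (∀ (k : Subfield ℂ) (N d : ℕ) (f : Fin (N + 1) → MvPolynomial (Fin (N + 1)) ℂ)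
      (a : Fin (N + 1) → ℂ), IsAlgClosed k → Endomorphism d f → a ≠ 0 → Unbounded k f a →
      ∀ S : Set (MvPolynomial (Fin (N + 1)) ℂ), (∀ g ∈ S, ∃ e : ℕ, g.IsHomogeneous e) →
        N = 2 ∨ (ringKrullDim (MvPolynomial (Fin (N + 1)) ℂ ⧸ Ideal.span S) ≤ 2 ∧
          Mild k f a) → FiniteUnion (returnSet f a S)) ∧
    (∀ (d : ℕ) (f : Fin 3 → MvPolynomial (Fin 3) ℂ), Endomorphism (N := 2) d f →
      ∃ Z : Set (Fin 3 → ℂ), Z.Countable ∧
        ∀ a : Fin 3 → ℂ, a ≠ 0 → (∀ z ∈ Z, ∀ c : ℂ, a ≠ c • z) →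
          ∀ S : Set (MvPolynomial (Fin 3) ℂ), (∀ g ∈ S, ∃ e : ℕ, g.IsHomogeneous e) →
            FiniteUnion (returnSet (N := 2) f a S)) ∧
    (∀ (d : ℕ) (f : Fin 3 → MvPolynomial (Fin 3) ℂ), Endomorphism (N := 2) d f →
      ∀ a : Fin 3 → ℂ, a ≠ 0 → ∀ S : Set (MvPolynomial (Fin 3) ℂ),
        (∀ g ∈ S, ∃ e : ℕ, g.IsHomogeneous e) →
        ∃ (R : Set ℕ) (r : ℕ) (φ : Fin r → Fin 3 → MvPolynomial (Fin 3) ℂ)
          (z : Fin r → Fin 3 → ℂ) (γ : Fin r → MvPolynomial (Fin 3) ℂ), FiniteUnion R ∧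
          (∀ s, Endomorphism (N := 2) d (φ s) ∧ z s ≠ 0 ∧ (∃ e : ℕ, (γ s).IsHomogeneous e) ∧
            (∀ i m, IsAlgebraic ℚ ((φ s i).coeff m)) ∧ (∀ i, IsAlgebraic ℚ (z s i)) ∧
            ∀ m, IsAlgebraic ℚ ((γ s).coeff m)) ∧
          returnSet (N := 2) f a S = R ∩ ⋂ s, returnSet (N := 2) (φ s) (z s) {γ s}) ∧
    (∀ d : ℕ, (∀ (φ : Fin 3 → MvPolynomial (Fin 3) ℂ) (z : Fin 3 → ℂ)
        (γ : MvPolynomial (Fin 3) ℂ), Endomorphism (N := 2) d φ → z ≠ 0 →
        (∃ e : ℕ, γ.IsHomogeneous e) → (∀ i m, IsAlgebraic ℚ ((φ i).coeff m)) →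
        (∀ i, IsAlgebraic ℚ (z i)) → (∀ m, IsAlgebraic ℚ (γ.coeff m)) →
        FiniteUnion (returnSet (N := 2) φ z {γ})) →
      ∀ (f : Fin 3 → MvPolynomial (Fin 3) ℂ) (a : Fin 3 → ℂ), Endomorphism (N := 2) d f →
        a ≠ 0 → ∀ S : Set (MvPolynomial (Fin 3) ℂ), (∀ g ∈ S, ∃ e : ℕ, g.IsHomogeneous e) →
          FiniteUnion (returnSet (N := 2) f a S)) := by
  refine ⟨fun k N d f a hk hf ha hunb S hS h => ?_, fun d f hf => ?_,
    fun d f hf a ha S hS => reduction d f hf a ha S hS, fun d hd f a hf ha S hS => ?_⟩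
  · rcases h with rfl | ⟨hdim, hmild⟩
    · exact planeAll k f hf a ha hunb S hS
    · exact curvesAll k f hf a ha hunb hmild S hS hdim
  · obtain ⟨k, hk, hkc, hcoef⟩ := exists_countable_field (N := 2) f
    refine ⟨{z | ∀ i, z i ∈ k}, ?_, fun a ha0 ha S hS => ?_⟩
    · have h1 : {z : Fin 3 → ℂ | ∀ i, z i ∈ k} = Set.univ.pi fun _ => (k : Set ℂ) := by
        ext z
        simp
      rw [h1]
      exact Set.countable_univ_pi fun _ => hkc
    · refine planeAll k f hf a ha0 (Or.inl ⟨hcoef, ?_⟩) S hS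
      rintro ⟨c, hc, h⟩
      refine ha (c • a) (fun i => h i) c⁻¹ ?_
      rw [smul_smul, inv_mul_cancel₀ hc, one_smul]
  · obtain ⟨R, r, φ, z, γ, hR, h1, h2⟩ := reduction d f hf a ha S hS
    rw [h2]
    exact finiteUnion_iInter (fun s => hd (φ s) (z s) (γ s) (h1 s).1 (h1 s).2.1 (h1 s).2.2.1
      (h1 s).2.2.2.1 (h1 s).2.2.2.2.1 (h1 s).2.2.2.2.2) hR

end Pool.Agent.Helper38.TQK.ResB
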